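import Mathlib

/-!
# Density ideals

Sequences of finite measures on pairwise disjoint finite sets of natural numbers, and their
ideals. Helper file for problem MP_af84fe_lc.
-/

namespace Pool.Agent.H87.Dn

open Filter Topology

/-- Pairwise disjoint finite sets `b 0, b 1, …` of natural numbers and weights of the points. -/
structure Dat where
  b : ℕ → Finset ℕ
  w : ℕ → ℝ
  disj : ∀ n m, n ≠ m → Disjoint (b n) (b m)
  nonneg : ∀ x, 0 ≤ w x

open Classical in
/-- The `n`-th measure: the sum of the weights of the points of `b n` in `A`. -/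
noncomputable def mu (M : Dat) (n : ℕ) (A : Set ℕ) : ℝ := ∑ x ∈ M.b n with x ∈ A, M.w x

/-- The density ideal: the sets whose measures tend to zero. -/
def Z (M : Dat) : Set (Set ℕ) := {A | Tendsto (fun n => mu M n A) atTop (𝓝 0)}

variable (M : Dat)

theorem mu_nonneg (n : ℕ) (A : Set ℕ) : 0 ≤ mu M n A := Finset.sum_nonneg fun x _ => M.nonneg x

theorem mu_mono (n : ℕ) {A B : Set ℕ} (h : A ⊆ B) : mu M n A ≤ mu M n B := by
  classical
  unfold mu
  apply Finset.sum_le_sum_of_subset_of_nonneg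
  · intro x hx
    simp only [Finset.mem_filter] at hx ⊢
    exact ⟨hx.1, h hx.2⟩
  · intro x _ _
    exact M.nonneg x

theorem mu_split (n : ℕ) (A B : Set ℕ) : mu M n A = mu M n (A ∩ B) + mu M n (A \ B) := by
  classical
  unfold mu
  rw [← Finset.sum_union]
  · congr 1
    ext x
    simp only [Finset.mem_filter, Finset.mem_union, Set.mem_inter_iff, Set.mem_sdiff]
    tauto
  · rw [Finset.disjoint_left]
    intro x hx hx'
    simp only [Finset.mem_filter] at hx hx'
    exact hx'.2.2 hx.2.2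

theorem mu_union (n : ℕ) (A B : Set ℕ) : mu M n (A ∪ B) ≤ mu M n A + mu M n B := by
  rw [mu_split M n (A ∪ B) A]
  apply add_le_add
  · exact mu_mono M n Set.inter_subset_right
  · exact mu_mono M n (by
      rintro x ⟨h1 | h1, h2⟩
      · exact absurd h1 h2
      · exact h1)

theorem mu_congr {n : ℕ} {A B : Set ℕ} (h : ∀ x ∈ M.b n, (x ∈ A ↔ x ∈ B)) :
    mu M n A = mu M n B := by
  classical
  unfold mu
  congr 1
  ext x
  simp only [Finset.mem_filter]
  constructor
  · rintro ⟨h1, h2⟩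
    exact ⟨h1, (h x h1).1 h2⟩
  · rintro ⟨h1, h2⟩
    exact ⟨h1, (h x h1).2 h2⟩

theorem mu_empty (n : ℕ) : mu M n ∅ = 0 := by
  unfold mu
  simp

theorem mu_eq_zero {n : ℕ} {A : Set ℕ} (h : ∀ x ∈ M.b n, x ∉ A) : mu M n A = 0 := by
  rw [← mu_empty M n]
  exact mu_congr M fun x hx => ⟨fun h' => absurd h' (h x hx), fun h' => absurd h' (Set.notMem_empty x)⟩

theorem w_le_mu {n x : ℕ} {A : Set ℕ} (hx : x ∈ M.b n) (hA : x ∈ A) : M.w x ≤ mu M n A := by
  classical
  unfold mu
  exact Finset.single_le_sum (f := M.w) (fun y _ => M.nonneg y) (by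
    rw [Finset.mem_filter]; exact ⟨hx, hA⟩)

theorem Z_mono {A B : Set ℕ} (hB : B ∈ Z M) (h : A ⊆ B) : A ∈ Z M :=
  squeeze_zero (fun n => mu_nonneg M n A) (fun n => mu_mono M n h) hB

theorem Z_union {A B : Set ℕ} (hA : A ∈ Z M) (hB : B ∈ Z M) : A ∪ B ∈ Z M := by
  refine squeeze_zero (fun n => mu_nonneg M n _) (fun n => mu_union M n A B) ?_
  simpa using Tendsto.add hA hB

theorem Z_small {X : Set ℕ} (h : X ∈ Z M) {ε : ℝ} (hε : 0 < ε) : ∀ᶠ n in atTop, mu M n X < ε :=
  (tendsto_order.1 h).2 ε hε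

theorem mem_Z_of_small {X : Set ℕ} (h : ∀ ε : ℝ, 0 < ε → ∀ᶠ n in atTop, mu M n X < ε) : X ∈ Z M := by
  rw [Z, Set.mem_ofPred_eq, tendsto_order]
  exact ⟨fun a ha => Eventually.of_forall fun n => lt_of_lt_of_le ha (mu_nonneg M _ _), h⟩

/-- Finite sets meet only finitely many of the sets `b n`. -/
theorem eventually_disjoint {A : Set ℕ} (hA : A.Finite) : ∀ᶠ n in atTop, ∀ x ∈ M.b n, x ∉ A := by
  classical
  have h1 : ∀ x : ℕ, ∀ᶠ n in atTop, x ∉ M.b n := by
    intro x
    by_cases hx : ∃ n, x ∈ M.b n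
    · obtain ⟨m, hm⟩ := hx
      filter_upwards [eventually_gt_atTop m] with n hn hxn
      exact Finset.disjoint_left.1 (M.disj n m (by omega)) hxn hm
    · push Not at hx
      exact Eventually.of_forall hx
  have h2 := (Filter.eventually_all_finite hA).2 (fun x _ => h1 x)
  filter_upwards [h2] with n hn x hx hxA
  exact hn x hxA hx

theorem Z_finite {A : Set ℕ} (hA : A.Finite) : A ∈ Z M := by
  have h1 : ∀ᶠ n in atTop, mu M n A = 0 :=
    (eventually_disjoint M hA).mono fun n hn => mu_eq_zero M hn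
  exact Tendsto.congr' (h1.mono fun n hn => hn.symm) tendsto_const_nhds

theorem not_mem_Z {X : Set ℕ} (h : X ∉ Z M) : ∃ j : ℕ, ∃ᶠ n in atTop, (1 / 2 : ℝ) ^ j ≤ mu M n X := by
  by_contra hcon
  push Not at hcon
  apply h
  apply mem_Z_of_small
  intro ε hε
  obtain ⟨j, hj⟩ := exists_pow_lt_of_lt_one hε (show (1 / 2 : ℝ) < 1 by norm_num)
  filter_upwards [hcon j] with n hn
  exact hn.trans hj

theorem not_mem_Z_of_frequently {X : Set ℕ} {δ : ℝ} (hδ : 0 < δ) (h : ∃ᶠ n in atTop, δ ≤ mu M n X) :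
    X ∉ Z M := by
  intro hX
  obtain ⟨n, h1, h2⟩ := (h.and_eventually (Z_small M hX hδ)).exists
  linarith

end Pool.Agent.H87.Dn
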