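import Pool.Agent.H87.Dn.Red

/-!
# Analytic maximal almost disjoint families modulo a density ideal

Helper file for problem MP_af84fe_lc.
-/

namespace Pool.Agent.H87.Dn

open Filter Topology Pool.Agent.Q302.AZ

/-- `𝒜` is an `I`-MAD family. -/
def IsMAD (I 𝒜 : Set (Set ℕ)) : Prop :=
  (∀ A ∈ 𝒜, A ∉ I) ∧ (∀ A ∈ 𝒜, ∀ B ∈ 𝒜, A ≠ B → A ∩ B ∈ I) ∧ ∀ X, X ∉ I → ∃ A ∈ 𝒜, X ∩ A ∉ I

/-- A family of subsets of `ℕ` is analytic as a subset of the Cantor space. -/
def IsAnalyticFamily (𝒜 : Set (Set ℕ)) : Prop :=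
  MeasureTheory.AnalyticSet {x : ℕ → Bool | {n | x n = true} ∈ 𝒜}

theorem coded {𝒜 : Set (Set ℕ)} (h𝒜 : IsAnalyticFamily 𝒜) (hne : 𝒜.Nonempty) :
    ∃ g : (ℕ → ℕ) → Set ℕ, (∀ f, g f ∈ 𝒜) ∧ (∀ A ∈ 𝒜, ∃ f, g f = A) ∧
      ∀ f n, ∃ k, ∀ f', (∀ i < k, f' i = f i) → (n ∈ g f' ↔ n ∈ g f) := by
  classical
  rw [IsAnalyticFamily, MeasureTheory.AnalyticSet_def] at h𝒜
  have hmem : ∀ A ∈ 𝒜, (fun n => decide (n ∈ A)) ∈ {x : ℕ → Bool | {n | x n = true} ∈ 𝒜} := by
    intro A hA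
    have : {n | (fun n => decide (n ∈ A)) n = true} = A := by ext n; simp
    rw [Set.mem_ofPred_eq, this]
    exact hA
  rcases h𝒜 with h0 | ⟨f, hf, hr⟩
  · obtain ⟨A, hA⟩ := hne
    have h4 := hmem A hA
    rw [h0] at h4
    exact absurd h4 (Set.notMem_empty _)
  · refine ⟨fun x => {n | f x n = true}, fun x => ?_, fun A hA => ?_, ?_⟩
    · have : f x ∈ Set.range f := ⟨x, rfl⟩
      rw [hr] at this
      exact this
    · have h4 := hmem A hA
      rw [← hr] at h4
      obtain ⟨x, hx⟩ := h4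
      refine ⟨x, ?_⟩
      ext n
      show f x n = true ↔ n ∈ A
      rw [hx]
      simp
    · intro x n
      have hcont : Continuous (fun x => f x n) := (continuous_apply n).comp hf
      have hopen : IsOpen ((fun x => f x n) ⁻¹' {f x n}) :=
        (isOpen_discrete {f x n}).preimage hcont
      obtain ⟨I, w, hw1, hw2⟩ := isOpen_pi_iff.1 hopen x rfl
      refine ⟨I.sup id + 1, fun x' hx' => ?_⟩
      have h5 : x' ∈ (fun x => f x n) ⁻¹' {f x n} := by
        apply hw2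
        intro i hi
        have h6 : i ≤ I.sup id := Finset.le_sup (f := id) hi
        rw [hx' i (by omega)]
        exact (hw1 i hi).2
      have h6 : f x' n = f x n := h5
      show f x' n = true ↔ f x n = true
      rw [h6]

/-- A countable family is analytic. -/
theorem analytic_of_countable {𝒜 : Set (Set ℕ)} (h : 𝒜.Countable) : IsAnalyticFamily 𝒜 := by
  classical
  have h1 : {x : ℕ → Bool | {n | x n = true} ∈ 𝒜} =
      ⋃ A ∈ 𝒜, {fun n => decide (n ∈ A)} := by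
    ext x
    simp only [Set.mem_ofPred_eq, Set.mem_iUnion, Set.mem_singleton_iff, exists_prop]
    constructor
    · intro hx
      exact ⟨_, hx, by funext n; simp⟩
    · rintro ⟨A, hA, rfl⟩
      have : {n | decide (n ∈ A) = true} = A := by ext n; simp
      rw [this]
      exact hA
  have h2 : {x : ℕ → Bool | {n | x n = true} ∈ 𝒜}.Countable := by
    rw [h1]
    exact h.biUnion fun A _ => Set.countable_singleton _
  rw [IsAnalyticFamily, MeasureTheory.AnalyticSet_def]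
  rcases Set.eq_empty_or_nonempty {x : ℕ → Bool | {n | x n = true} ∈ 𝒜} with h3 | h3
  · exact Or.inl h3
  · right
    obtain ⟨f, hf⟩ := h2.exists_eq_range h3
    refine ⟨fun x => f (x 0), continuous_of_discreteTopology.comp (continuous_apply 0), ?_⟩
    rw [hf]
    ext y
    constructor
    · rintro ⟨x, rfl⟩
      exact ⟨x 0, rfl⟩
    · rintro ⟨n, rfl⟩
      exact ⟨fun _ => n, rfl⟩

variable (M : Dat)

/-- **Analytic families are countable, with finitely many large members.** -/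
theorem mad_countable {𝒜 : Set (Set ℕ)} (h : IsAnalyticFamily 𝒜) (hmad : IsMAD (Z M) 𝒜) :
    𝒜.Countable ∧ ∀ δ : ℝ, 0 < δ → {A | A ∈ 𝒜 ∧ ∃ᶠ n in atTop, δ ≤ mu M n A}.Finite := by
  rcases Set.eq_empty_or_nonempty 𝒜 with h0 | h0
  · subst h0
    exact ⟨Set.countable_empty, fun δ _ => by simp⟩
  · obtain ⟨g, h1, h2, h3⟩ := coded h h0
    exact ⟨countable M hmad.2.1 hmad.1 hmad.2.2 g h1 h2 h3,
      fun δ hδ => level_finite M hmad.2.1 hmad.2.2 g h1 h2 h3 hδ⟩

/-- Points of small weight. -/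
def light (δ : ℝ) : Set ℕ := {x | M.w x < δ}

theorem fin_like {δ : ℝ} (hδ : 0 < δ) (h : light M δ ∈ Z M) :
    Z M = {A | (A ∩ {x | δ ≤ M.w x ∧ ∃ n, x ∈ M.b n}).Finite} := by
  classical
  ext A
  constructor
  · intro hA
    obtain ⟨N, hN⟩ := eventually_atTop.1 (Z_small M hA hδ)
    have h1 : (⋃ n ∈ Finset.range N, (M.b n : Set ℕ)).Finite :=
      Set.Finite.biUnion (Finset.finite_toSet _) (fun n _ => Finset.finite_toSet _)
    apply h1.subset
    rintro x ⟨hxA, hx1, n, hx2⟩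
    simp only [Set.mem_iUnion, Finset.mem_range]
    refine ⟨n, ?_, hx2⟩
    by_contra hcon
    have h2 := hN n (not_lt.1 hcon)
    have h3 := w_le_mu M hx2 hxA
    linarith
  · intro hA
    have h1 : A \ {x | δ ≤ M.w x ∧ ∃ n, x ∈ M.b n} ∈ Z M := by
      apply mem_Z_of_small
      intro ε hε
      filter_upwards [Z_small M h hε] with n hn
      refine lt_of_le_of_lt ?_ hn
      have h2 : mu M n (A \ {x | δ ≤ M.w x ∧ ∃ n, x ∈ M.b n}) =
          mu M n ((A \ {x | δ ≤ M.w x ∧ ∃ n, x ∈ M.b n}) ∩ light M δ) := mu_congr M fun x hx => by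
        constructor
        · rintro ⟨h3, h4⟩
          refine ⟨⟨h3, h4⟩, ?_⟩
          by_contra h5
          exact h4 ⟨not_lt.1 h5, n, hx⟩
        · rintro ⟨h3, _⟩
          exact h3
      rw [h2]
      exact mu_mono M n Set.inter_subset_right
    have h2 : A ∩ {x | δ ≤ M.w x ∧ ∃ n, x ∈ M.b n} ∈ Z M := Z_finite M hA
    refine Z_mono M (Z_union M h1 h2) ?_
    intro x hx
    by_cases h3 : x ∈ {x | δ ≤ M.w x ∧ ∃ n, x ∈ M.b n}
    · exact Or.inr ⟨hx, h3⟩
    · exact Or.inl ⟨hx, h3⟩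

theorem finite_of_light {δ : ℝ} (hδ : 0 < δ) (h : light M δ ∈ Z M) {𝒜 : Set (Set ℕ)}
    (h𝒜 : IsAnalyticFamily 𝒜) (hmad : IsMAD (Z M) 𝒜) : 𝒜.Finite := by
  apply ((mad_countable M h𝒜 hmad).2 δ hδ).subset
  intro A hA
  refine ⟨hA, ?_⟩
  have h1 : A \ light M δ ∉ Z M := by
    intro h2
    apply hmad.1 A hA
    refine Z_mono M (Z_union M h2 h) ?_
    intro x hx
    by_cases h3 : x ∈ light M δ
    · exact Or.inr h3
    · exact Or.inl ⟨hx, h3⟩
  obtain ⟨j, hj⟩ := not_mem_Z M h1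
  refine hj.mono fun n hn => ?_
  by_contra hcon
  have h2 : mu M n (A \ light M δ) = 0 := by
    apply mu_eq_zero
    rintro x hx ⟨h3, h4⟩
    have h5 := w_le_mu M hx h3
    have h6 : δ ≤ M.w x := not_lt.1 h4
    linarith [not_le.1 hcon]
  rw [h2] at hn
  have : (0 : ℝ) < (1 / 2 : ℝ) ^ j := by positivity
  linarith

/-- The construction of an infinite family. -/
theorem construct (h : ∀ δ : ℝ, 0 < δ → light M δ ∉ Z M) :
    ∃ A : ℕ → Set ℕ, (∀ i j, i ≠ j → Disjoint (A i) (A j)) ∧ (∀ i, A i ∉ Z M) ∧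
      ∀ X, X ∉ Z M → X ∩ (⋃ i, A i)ᶜ ∉ Z M ∨ ∃ i, X ∩ A i ∉ Z M := by
  classical
  have h1 : ∀ i : ℕ, ∃ c : ℝ, 0 < c ∧ c ≤ (1 / 2 : ℝ) ^ i ∧
      ∃ᶠ n in atTop, c ≤ mu M n (light M ((1 / 2 : ℝ) ^ i)) := by
    intro i
    obtain ⟨j, hj⟩ := not_mem_Z M (h ((1 / 2 : ℝ) ^ i) (by positivity))
    exact ⟨min ((1 / 2 : ℝ) ^ j) ((1 / 2 : ℝ) ^ i), lt_min (by positivity) (by positivity),
      min_le_right _ _, hj.mono fun n hn => (min_le_left _ _).trans hn⟩
  choose c hc0 hc1 hc2 using h1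
  obtain ⟨ν, hν, hP⟩ := exists_seq
    (fun k n => c (Nat.unpair k).1 ≤ mu M n (light M ((1 / 2 : ℝ) ^ (Nat.unpair k).1))) (fun k => hc2 _)
  have hJ : ∀ k, ∃ J ⊆ (M.b (ν k)).filter (· ∈ light M ((1 / 2 : ℝ) ^ (Nat.unpair k).1)),
      c (Nat.unpair k).1 ≤ ∑ x ∈ J, M.w x ∧
      ∑ x ∈ J, M.w x ≤ c (Nat.unpair k).1 + (1 / 2 : ℝ) ^ (Nat.unpair k).1 :=
    fun k => chunk _ (fun x hx => by
      have h2 := (Finset.mem_filter.1 hx).2
      exact le_of_lt h2) (hP k) (hc0 _)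
  choose J hJ1 hJ2 hJ3 using hJ
  have hJb : ∀ k, ∀ x ∈ J k, x ∈ M.b (ν k) := fun k x hx => (Finset.mem_filter.1 (hJ1 k hx)).1
  have hJu : ∀ k l x, x ∈ J k → x ∈ J l → k = l := fun k l x hk hl =>
    hν.injective (blk_unique M (hJb k x hk) (hJb l x hl))
  let A : ℕ → Set ℕ := fun i => {x | ∃ k, (Nat.unpair k).1 = i ∧ x ∈ J k}
  have hAJ : ∀ k, ∀ x ∈ M.b (ν k), ∀ i, x ∈ A i → x ∈ J k ∧ (Nat.unpair k).1 = i := by
    rintro k x hx i ⟨l, hl1, hl2⟩
    have : k = l := hν.injective (blk_unique M hx (hJb l x hl2))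
    subst this
    exact ⟨hl2, hl1⟩
  have hmuA : ∀ k, mu M (ν k) (A (Nat.unpair k).1) = ∑ x ∈ J k, M.w x := by
    intro k
    unfold mu
    congr 1
    ext x
    rw [Finset.mem_filter]
    constructor
    · rintro ⟨h2, h3⟩
      exact (hAJ k x h2 _ h3).1
    · intro h2
      exact ⟨hJb k x h2, k, rfl, h2⟩
  refine ⟨A, ?_, ?_, ?_⟩
  · intro i j hij
    rw [Set.disjoint_left]
    rintro x ⟨k, hk1, hk2⟩ ⟨l, hl1, hl2⟩
    have := hJu k l x hk2 hl2
    subst this
    exact hij (hk1.symm.trans hl1)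
  · intro i
    apply not_mem_Z_of_frequently M (hc0 i)
    rw [frequently_atTop]
    intro N
    refine ⟨ν (Nat.pair i N), (Nat.right_le_pair i N).trans (hν.id_le _), ?_⟩
    have h2 := hmuA (Nat.pair i N)
    have h3 := hJ2 (Nat.pair i N)
    rw [Nat.unpair_pair] at h2 h3
    change _ ≤ mu M _ (A i)
    rw [h2]
    exact h3
  · intro X hX
    by_contra hcon
    push Not at hcon
    obtain ⟨hC, hA⟩ := hcon
    apply hX
    have hU : X ∩ (⋃ i, A i) ∈ Z M := by
      apply mem_Z_of_small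
      intro ε hε
      obtain ⟨I, hI⟩ := exists_pow_lt_of_lt_one (show 0 < ε / 2 by positivity)
        (show (1 / 2 : ℝ) < 1 by norm_num)
      have h2 : ∀ᶠ n in atTop, ∀ i ∈ Finset.range I, mu M n (X ∩ A i) < ε :=
        (Finset.eventually_all (Finset.range I)).2 fun i _ => Z_small M (hA i) hε
      filter_upwards [h2] with n hn
      by_cases h3 : ∃ k, ν k = n
      · obtain ⟨k, rfl⟩ := h3
        have h4 : mu M (ν k) (X ∩ ⋃ i, A i) = mu M (ν k) (X ∩ A (Nat.unpair k).1) :=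
          mu_congr M fun x hx => by
            constructor
            · rintro ⟨h5, h6⟩
              obtain ⟨i, hi⟩ := Set.mem_iUnion.1 h6
              have h7 := (hAJ k x hx i hi).2
              exact ⟨h5, by rw [h7]; exact hi⟩
            · rintro ⟨h5, h6⟩
              exact ⟨h5, Set.mem_iUnion.2 ⟨_, h6⟩⟩
        rw [h4]
        by_cases h5 : (Nat.unpair k).1 < I
        · exact hn _ (Finset.mem_range.2 h5)
        · have h6 : mu M (ν k) (X ∩ A (Nat.unpair k).1) ≤ mu M (ν k) (A (Nat.unpair k).1) :=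
            mu_mono M _ Set.inter_subset_right
          rw [hmuA] at h6
          have h7 := hJ3 k
          have h8 := hc1 (Nat.unpair k).1
          have h9 : (1 / 2 : ℝ) ^ (Nat.unpair k).1 ≤ (1 / 2 : ℝ) ^ I :=
            pow_le_pow_of_le_one (by norm_num) (by norm_num) (not_lt.1 h5)
          linarith
      · have h4 : mu M n (X ∩ ⋃ i, A i) = 0 := by
          apply mu_eq_zero
          rintro x hx ⟨_, h6⟩
          obtain ⟨i, k, _, hk⟩ := Set.mem_iUnion.1 h6
          exact h3 ⟨k, blk_unique M (hJb k x hk) hx⟩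
        rw [h4]
        exact hε
    refine Z_mono M (Z_union M hC hU) ?_
    intro x hx
    by_cases h3 : x ∈ ⋃ i, A i
    · exact Or.inr ⟨hx, h3⟩
    · exact Or.inl ⟨hx, h3⟩

/-- If the points of small weight are never negligible there is an infinite countable family. -/
theorem exists_infinite (h : ∀ δ : ℝ, 0 < δ → light M δ ∉ Z M) :
    ∃ 𝒜 : Set (Set ℕ), 𝒜.Countable ∧ 𝒜.Infinite ∧ IsMAD (Z M) 𝒜 := by
  classical
  obtain ⟨A, hA1, hA2, hA3⟩ := construct M h
  have hinj : Function.Injective A := by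
    intro i j hij
    by_contra hne
    have h1 := hA1 i j hne
    rw [← hij, disjoint_self] at h1
    apply hA2 i
    rw [h1]
    exact Z_finite M Set.finite_empty
  refine ⟨{B | B ∉ Z M ∧ (B = (⋃ i, A i)ᶜ ∨ ∃ i, A i = B)}, ?_, ?_, fun B hB => hB.1, ?_, ?_⟩
  · apply ((Set.countable_range A).insert (⋃ i, A i)ᶜ).mono
    rintro B ⟨_, h1 | ⟨i, h1⟩⟩
    · exact Or.inl h1
    · exact Or.inr ⟨i, h1⟩
  · apply (Set.infinite_range_of_injective hinj).mono
    rintro _ ⟨i, rfl⟩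
    exact ⟨hA2 i, Or.inr ⟨i, rfl⟩⟩
  · have key : ∀ i, (⋃ i, A i)ᶜ ∩ A i = ∅ := by
      intro i
      ext x
      simp only [Set.mem_inter_iff, Set.mem_compl_iff, Set.mem_empty_iff_false, iff_false]
      rintro ⟨h1, h2⟩
      exact h1 (Set.mem_iUnion.2 ⟨i, h2⟩)
    have hempty : (∅ : Set ℕ) ∈ Z M := Z_finite M Set.finite_empty
    rintro B ⟨_, h1⟩ C ⟨_, h2⟩ hBC
    rcases h1 with rfl | ⟨i, rfl⟩
    · rcases h2 with rfl | ⟨j, rfl⟩
      · exact absurd rfl hBC
      · rw [key]; exact hempty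
    · rcases h2 with rfl | ⟨j, rfl⟩
      · rw [Set.inter_comm, key]; exact hempty
      · rw [Set.disjoint_iff_inter_eq_empty.1 (hA1 i j fun h => hBC (by rw [h]))]
        exact hempty
  · intro X hX
    rcases hA3 X hX with h1 | ⟨i, h1⟩
    · exact ⟨_, ⟨fun h2 => h1 (Z_mono M h2 Set.inter_subset_right), Or.inl rfl⟩, h1⟩
    · exact ⟨_, ⟨hA2 i, Or.inr ⟨i, rfl⟩⟩, h1⟩

/-- **Dichotomy.** -/
theorem dichotomy :
    (∀ 𝒜 : Set (Set ℕ), IsAnalyticFamily 𝒜 → IsMAD (Z M) 𝒜 → 𝒜.Finite) ↔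
      ∃ S : Set ℕ, Z M = {A | (A ∩ S).Finite} := by
  classical
  constructor
  · intro h
    by_contra hcon
    have h1 : ∀ δ : ℝ, 0 < δ → light M δ ∉ Z M := fun δ hδ h2 => hcon ⟨_, fin_like M hδ h2⟩
    obtain ⟨𝒜, h2, h3, h4⟩ := exists_infinite M h1
    exact h3 (h 𝒜 (analytic_of_countable h2) h4)
  · rintro ⟨S, hS⟩ 𝒜 h𝒜 hmad
    have h1 : ∃ δ : ℝ, 0 < δ ∧ light M δ ∈ Z M := by
      by_contra hcon
      push Not at hcon
      obtain ⟨A, hA1, hA2, hA3⟩ := construct M hcon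
      have h2 : ∀ i, ∃ x, x ∈ A i ∩ S := by
        intro i
        by_contra h3
        push Not at h3
        apply hA2 i
        rw [hS]
        show (A i ∩ S).Finite
        rw [Set.eq_empty_of_forall_notMem h3]
        exact Set.finite_empty
      choose x hx using h2
      have hxinj : Function.Injective x := by
        intro i j hij
        by_contra hne
        exact Set.disjoint_left.1 (hA1 i j hne) (hx i).1 (by rw [hij]; exact (hx j).1)
      have h3 : Set.range x ∉ Z M := by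
        rw [hS]
        intro h4
        have h5 : (Set.range x ∩ S).Finite := h4
        rw [Set.inter_eq_left.2 (by rintro _ ⟨i, rfl⟩; exact (hx i).2)] at h5
        exact Set.infinite_range_of_injective hxinj h5
      rcases hA3 _ h3 with h4 | ⟨i, h4⟩
      · apply h4
        have : Set.range x ∩ (⋃ i, A i)ᶜ = ∅ := by
          ext y
          simp only [Set.mem_inter_iff, Set.mem_compl_iff, Set.mem_empty_iff_false, iff_false]
          rintro ⟨⟨i, rfl⟩, h5⟩
          exact h5 (Set.mem_iUnion.2 ⟨i, (hx i).1⟩)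
        rw [this]
        exact Z_finite M Set.finite_empty
      · apply h4
        apply Z_finite M
        apply (Set.finite_singleton (x i)).subset
        rintro _ ⟨⟨j, rfl⟩, h5⟩
        by_cases hji : j = i
        · rw [hji]; rfl
        · exact absurd h5 (fun h6 => Set.disjoint_left.1 (hA1 j i hji) (hx j).1 h6)
    obtain ⟨δ, hδ, h2⟩ := h1
    exact finite_of_light M hδ h2 h𝒜 hmad

end Pool.Agent.H87.Dn
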