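import Pool.Agent.H87.Dn.Zf

/-!
# Characterisation of analytic maximal almost disjoint families modulo a density ideal

Helper file for problem MP_af84fe_lc.
-/

namespace Pool.Agent.H87.Dn

open Filter Topology Pool.Agent.Q302.AZ

/-- `𝒜` is an `I`-almost disjoint family (of `I`-positive sets). -/
def IsAD (I 𝒜 : Set (Set ℕ)) : Prop :=
  (∀ A ∈ 𝒜, A ∉ I) ∧ ∀ A ∈ 𝒜, ∀ B ∈ 𝒜, A ≠ B → A ∩ B ∈ I

/-- Every analytic maximal almost disjoint family modulo the density zero ideal is countable. -/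
theorem zero_countable (𝒜 : Set (Set ℕ)) (h : IsAnalyticFamily 𝒜) (hmad : IsMAD Z0 𝒜) :
    𝒜.Countable := by
  have hS : Tendsto (fun n => ∑ _i ∈ Finset.range n, (1 : ℝ)) atTop atTop := by
    simp only [Finset.sum_const, Finset.card_range, nsmul_eq_mul, mul_one]
    exact tendsto_natCast_atTop_atTop
  obtain ⟨M, -, hM, -⟩ := exists_dat (f := fun _ => 1) (fun _ => zero_le_one) hS
  rw [Z0_eq, ← hM] at hmad
  exact (mad_countable M h hmad).1

/-- **Characterisation of maximality.** -/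
theorem mad_iff (M : Dat) {𝒜 : Set (Set ℕ)} (h : IsAnalyticFamily 𝒜) (hAD : IsAD (Z M) 𝒜) :
    IsMAD (Z M) 𝒜 ↔ ∀ T : Set ℕ, (∃ C, ∀ n, mu (trunc M) n T ≤ C) → ∀ ε : ℝ, 0 < ε →
      ∃ F : Finset (Set ℕ), (∀ A ∈ F, A ∈ 𝒜) ∧ ∀ᶠ n in atTop, mu M n (T \ U F) < ε := by
  constructor
  · rintro ⟨h1, h2, h3⟩ T ⟨C, hC⟩ ε hε
    rcases Set.eq_empty_or_nonempty 𝒜 with h0 | h0
    · subst h0
      refine ⟨∅, by simp, ?_⟩
      have h4 : T ∈ Z M := by
        by_contra h5
        obtain ⟨A, hA, _⟩ := h3 T h5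
        exact absurd hA (Set.notMem_empty A)
      filter_upwards [Z_small M h4 hε] with n hn
      exact lt_of_le_of_lt (mu_mono M n Set.sdiff_subset) hn
    · obtain ⟨g, g1, g2, g3⟩ := coded h h0
      exact exhaust M h2 h3 g g1 g2 g3 hC hε
  · intro h1
    exact ⟨hAD.1, hAD.2, maximal_of_exhaust M h1⟩

/-- Characterisation of maximality for densities with weights. -/
theorem mad_iff_weights {f : ℕ → ℝ} (hf : ∀ n, 0 ≤ f n)
    (hS : Tendsto (fun n => ∑ i ∈ Finset.range n, f i) atTop atTop)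
    {𝒜 : Set (Set ℕ)} (h : IsAnalyticFamily 𝒜) (hAD : IsAD (Zf f) 𝒜) :
    IsMAD (Zf f) 𝒜 ↔ ∀ ε : ℝ, 0 < ε →
      ∃ F : Finset (Set ℕ), (∀ A ∈ F, A ∈ 𝒜) ∧ ∀ᶠ n in atTop, fd f (⋃ A ∈ F, A)ᶜ n < ε := by
  classical
  obtain ⟨M, hM3, hM, hM4⟩ := exists_dat hf hS
  constructor
  · intro hmad ε hε
    rw [← hM] at hmad hAD
    obtain ⟨F, hF, hF'⟩ := (mad_iff M h hAD).1 hmad Set.univ
      ⟨3, fun n => (mu_trunc_le M n _).trans (hM3 n _)⟩ (ε / 4) (by positivity)
    refine ⟨F, hF, ?_⟩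
    have h1 := hM4 (U F)ᶜ (ε / 4) (by positivity) (by
      filter_upwards [hF'] with n hn
      rwa [← Set.compl_eq_univ_sdiff] at hn)
    filter_upwards [h1] with n hn
    show fd f (U F)ᶜ n < ε
    linarith
  · intro h1
    refine ⟨hAD.1, hAD.2, fun X hX => ?_⟩
    by_contra hcon
    push Not at hcon
    apply hX
    have hfin : ∀ F : Finset (Set ℕ), (∀ A ∈ F, A ∈ 𝒜) → X ∩ U F ∈ Zf f := by
      rw [← hM] at hcon ⊢
      intro F
      induction F using Finset.induction_on with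
      | empty => intro _; simpa [U] using Z_finite M Set.finite_empty
      | insert B F hBF ih =>
        intro hF
        refine Z_mono M (Z_union M (hcon B (hF B (Finset.mem_insert_self _ _)))
          (ih fun A hA => hF A (Finset.mem_insert_of_mem hA))) ?_
        rintro x ⟨hx1, hx2⟩
        simp only [U, Set.mem_iUnion, Finset.mem_insert] at hx2
        obtain ⟨A, hA | hA, hx⟩ := hx2
        · rw [hA] at hx
          exact Or.inl ⟨hx1, hx⟩
        · refine Or.inr ⟨hx1, ?_⟩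
          simp only [U, Set.mem_iUnion]
          exact ⟨A, hA, hx⟩
    show Tendsto (fun n => fd f X n) atTop (𝓝 0)
    rw [tendsto_order]
    refine ⟨fun a ha => Eventually.of_forall fun n => lt_of_lt_of_le ha (fd_nonneg hf X n), ?_⟩
    intro ε hε
    obtain ⟨F, hF, hF'⟩ := h1 (ε / 2) (by positivity)
    have h2 : Tendsto (fun n => fd f (X ∩ U F) n) atTop (𝓝 0) := hfin F hF
    filter_upwards [hF', (tendsto_order.1 h2).2 (ε / 2) (by positivity)] with n h3 h4
    have h5 := fd_split hf X (U F) n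
    have h6 : fd f (U F)ᶜ n < ε / 2 := h3
    linarith

/-- The infinite case of the dichotomy. -/
theorem infinite_iff (M : Dat) :
    (∃ 𝒜 : Set (Set ℕ), 𝒜.Countable ∧ 𝒜.Infinite ∧ IsMAD (Z M) 𝒜) ↔
      ¬ ∃ S : Set ℕ, Z M = {A | (A ∩ S).Finite} := by
  constructor
  · rintro ⟨𝒜, h1, h2, h3⟩ h4
    exact h2 ((dichotomy M).2 h4 𝒜 (analytic_of_countable h1) h3)
  · intro h
    exact exists_infinite M fun δ hδ h2 => h ⟨_, fin_like M hδ h2⟩

end Pool.Agent.H87.Dn
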