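import Pool.Graph.R_pool_sql_team_seeded_2aa45f1a.Q302.AZ.Coideal
import Pool.Agent.H87.Dn.Base

/-!
# Almost disjoint families modulo a density ideal: the coideal

Adapted from the case of the density zero ideal in the library
(`Pool.Graph.R_pool_sql_team_seeded_2aa45f1a.Q302.AZ.Mad`). Helper file for problem MP_af84fe_lc.
-/

namespace Pool.Agent.H87.Dn

open Filter Topology Pool.Agent.Q302.AZ

variable (M : Dat)

/-! ### finite unions -/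

/-- union of a finite family -/
def U (F : Finset (Set ℕ)) : Set ℕ := ⋃ A ∈ F, A

/-- uncovered density -/
noncomputable def u (n : ℕ) (F : Finset (Set ℕ)) : ℝ := mu M n (U F)ᶜ

theorem U_mono {F G : Finset (Set ℕ)} (h : F ⊆ G) : U F ⊆ U G := by
  intro x hx
  simp only [U, Set.mem_iUnion] at hx ⊢
  obtain ⟨A, hA, hx⟩ := hx
  exact ⟨A, h hA, hx⟩

theorem u_anti (n : ℕ) {F G : Finset (Set ℕ)} (h : F ⊆ G) : u M n G ≤ u M n F :=
  mu_mono M n (Set.compl_subset_compl.2 (U_mono h))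

theorem u_nonneg (n : ℕ) (F : Finset (Set ℕ)) : 0 ≤ u M n F := mu_nonneg M _ _

section
variable (hM : ∀ n A, mu M n A ≤ 1)
include hM
theorem u_le_one (n : ℕ) (F : Finset (Set ℕ)) : u M n F ≤ 1 := hM _ _
end

open Classical in
theorem U_union (F G : Finset (Set ℕ)) : U (F ∪ G) = U F ∪ U G := by
  ext x
  simp only [U, Set.mem_iUnion, Finset.mem_union, Set.mem_union]
  constructor
  · rintro ⟨A, hA | hA, hx⟩
    · exact Or.inl ⟨A, hA, hx⟩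
    · exact Or.inr ⟨A, hA, hx⟩
  · rintro (⟨A, hA, hx⟩ | ⟨A, hA, hx⟩)
    · exact ⟨A, Or.inl hA, hx⟩
    · exact ⟨A, Or.inr hA, hx⟩

open Classical in
theorem u_union (n : ℕ) (F G : Finset (Set ℕ)) :
    u M n (F ∪ G) = u M n F - mu M n (U G \ U F) := by
  have h1 := mu_split M n (U F)ᶜ (U G)
  unfold u
  have h2 : (U F)ᶜ ∩ U G = U G \ U F := by rw [Set.inter_comm]; rfl
  have h3 : (U F)ᶜ \ U G = (U (F ∪ G))ᶜ := by
    rw [U_union, Set.compl_union]; rfl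
  rw [h2, h3] at h1
  linarith

theorem inter_mem_Z {𝒜 : Set (Set ℕ)} (hAD : ∀ A ∈ 𝒜, ∀ B ∈ 𝒜, A ≠ B → A ∩ B ∈ Z M)
    {F G : Finset (Set ℕ)} (hF : ∀ A ∈ F, A ∈ 𝒜) (hG : ∀ A ∈ G, A ∈ 𝒜) (hFG : Disjoint F G) :
    U F ∩ U G ∈ Z M := by
  classical
  have hfin : ∀ (S : Finset (Set ℕ × Set ℕ)), (∀ p ∈ S, p.1 ∩ p.2 ∈ Z M) → (⋃ p ∈ S, p.1 ∩ p.2) ∈ Z M := by
    intro S
    induction S using Finset.induction_on with
    | empty => intro _; simpa using Z_finite M Set.finite_empty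
    | insert a S ha ih =>
      intro h
      rw [Finset.set_biUnion_insert]
      exact Z_union M (h a (Finset.mem_insert_self _ _)) (ih fun p hp => h p (Finset.mem_insert_of_mem hp))
  refine Z_mono M (hfin (F ×ˢ G) ?_) ?_
  · rintro ⟨A, B⟩ hp
    rw [Finset.mem_product] at hp
    refine hAD A (hF A hp.1) B (hG B hp.2) ?_
    rintro rfl
    exact Finset.disjoint_left.1 hFG hp.1 hp.2
  · rintro x ⟨hx1, hx2⟩
    simp only [U, Set.mem_iUnion] at hx1 hx2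
    obtain ⟨A, hA, hxA⟩ := hx1
    obtain ⟨B, hB, hxB⟩ := hx2
    simp only [Set.mem_iUnion]
    exact ⟨(A, B), Finset.mem_product.2 ⟨hA, hB⟩, hxA, hxB⟩

/-! ### the coideal -/

variable {𝒜 : Set (Set ℕ)} {a : ℝ}

/-- The coideal of sets of block indices of full level. -/
def H (𝒜 : Set (Set ℕ)) (a : ℝ) : Set (Set ℕ) :=
  {D | ∀ F : Finset (Set ℕ), (∀ A ∈ F, A ∈ 𝒜) → ∀ ε > 0, ∃ᶠ n in atTop, n ∈ D ∧ a - ε ≤ u M n F}

theorem H_up {D D' : Set ℕ} (hD : D ∈ H M 𝒜 a) (h : D ⊆ D') : D' ∈ H M 𝒜 a :=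
  fun F hF ε hε => (hD F hF ε hε).mono fun _ hn => ⟨h hn.1, hn.2⟩

theorem H_split {D D' : Set ℕ} (h : D ∪ D' ∈ H M 𝒜 a) : D ∈ H M 𝒜 a ∨ D' ∈ H M 𝒜 a := by
  classical
  by_contra hcon
  rw [not_or] at hcon
  obtain ⟨h1, h2⟩ := hcon
  simp only [H, Set.mem_ofPred_eq, not_forall] at h1 h2
  obtain ⟨F, hF, ε, hε, h1⟩ := h1
  obtain ⟨F', hF', ε', hε', h2⟩ := h2
  rw [not_frequently] at h1 h2
  have h3 := h (F ∪ F') (fun A hA => (Finset.mem_union.1 hA).elim (hF A) (hF' A)) (min ε ε')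
    (lt_min hε hε')
  obtain ⟨n, ⟨h3, h4⟩, h5, h6⟩ := (h3.and_eventually (h1.and h2)).exists
  rcases h3 with h3 | h3
  · apply h5
    refine ⟨h3, ?_⟩
    have := u_anti M n (Finset.subset_union_left (s₁ := F) (s₂ := F'))
    have := min_le_left ε ε'
    linarith
  · apply h6
    refine ⟨h3, ?_⟩
    have := u_anti M n (Finset.subset_union_right (s₁ := F) (s₂ := F'))
    have := min_le_right ε ε'
    linarith

theorem H_inf {D : Set ℕ} (h : D ∈ H M 𝒜 a) : D.Infinite := by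
  have h1 := h ∅ (by simp) 1 one_pos
  exact Nat.frequently_atTop_iff_infinite.1 (h1.mono fun _ hn => hn.1)

/-- almost optimal finite families -/
theorem near_opt (hM : ∀ n A, mu M n A ≤ 1) (𝒜 : Set (Set ℕ)) (i : ℕ) (D : Set ℕ) (hD : D.Infinite) :
    ∃ F : Finset (Set ℕ), (∀ A ∈ F, A ∈ 𝒜) ∧ ∃ r : ℝ, (∀ᶠ n in atTop, n ∈ D → u M n F ≤ r) ∧
      ∀ F' : Finset (Set ℕ), (∀ A ∈ F', A ∈ 𝒜) →
        ∃ᶠ n in atTop, n ∈ D ∧ r - (1 / 2 : ℝ) ^ i ≤ u M n F' := by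
  classical
  have hex : ∃ m : ℕ, ∃ F : Finset (Set ℕ), (∀ A ∈ F, A ∈ 𝒜) ∧
      ∀ᶠ n in atTop, n ∈ D → u M n F ≤ m * (1 / 2 : ℝ) ^ i := by
    refine ⟨2 ^ i, ∅, by simp, Eventually.of_forall fun n _ => ?_⟩
    push_cast
    rw [← mul_pow]
    norm_num
    exact u_le_one M hM _ _
  obtain ⟨F, hF, hF'⟩ := Nat.find_spec hex
  refine ⟨F, hF, _, hF', ?_⟩
  intro F' hF'𝒜
  rcases Nat.eq_zero_or_pos (Nat.find hex) with h0 | h0
  · rw [h0]
    refine (Nat.frequently_atTop_iff_infinite.2 hD).mono fun n hn => ⟨hn, ?_⟩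
    have := u_nonneg M n F'
    have h1 : (0 : ℝ) < (1 / 2 : ℝ) ^ i := by positivity
    push_cast
    linarith
  · have h1 := Nat.find_min hex (m := Nat.find hex - 1) (by omega)
    by_contra hcon
    rw [not_frequently] at hcon
    apply h1
    refine ⟨F', hF'𝒜, ?_⟩
    filter_upwards [hcon] with n hn hnD
    by_contra h2
    apply hn
    refine ⟨hnD, ?_⟩
    rw [Nat.cast_sub h0] at h2
    push_cast at h2
    linarith

/-- The criterion for membership in the coideal. -/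
theorem pos_criterion (hAD : ∀ A ∈ 𝒜, ∀ B ∈ 𝒜, A ≠ B → A ∩ B ∈ Z M)
    (D : ℕ → Set ℕ) (F G : ℕ → Finset (Set ℕ)) (hF : ∀ i, ∀ A ∈ F i, A ∈ 𝒜)
    (hG : Monotone G) (hFG : ∀ i, F i ⊆ G (i + 1))
    (h1 : ∀ i, ∀ ε > 0, ∀ᶠ n in atTop, n ∈ D i → a - ε ≤ u M n (G i))
    (h2 : ∀ i, ∃ r : ℝ, (∀ᶠ n in atTop, n ∈ D i → u M n (F i) ≤ r) ∧
      ∀ F' : Finset (Set ℕ), (∀ A ∈ F', A ∈ 𝒜) →
        ∃ᶠ n in atTop, n ∈ D i ∧ r - (1 / 2 : ℝ) ^ i ≤ u M n F') :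
    (⋃ i, D i) ∈ H M 𝒜 a := by
  classical
  intro E hE ε hε
  by_contra hcon
  rw [not_frequently] at hcon
  -- old and new part of `E`
  let Eo := E.filter (fun A => ∃ i, A ∈ G i)
  let En := E.filter (fun A => ¬ ∃ i, A ∈ G i)
  have hEu : E = Eo ∪ En := (Finset.filter_union_filter_not_eq _ E).symm
  obtain ⟨i₀, hi₀⟩ : ∃ i₀, Eo ⊆ G i₀ := by
    have h3 : ∀ A : Set ℕ, ∃ i, (∃ i, A ∈ G i) → A ∈ G i := by
      intro A
      by_cases h : ∃ i, A ∈ G i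
      · obtain ⟨i, hi⟩ := h
        exact ⟨i, fun _ => hi⟩
      · exact ⟨0, fun h' => absurd h' h⟩
    choose k hk using h3
    refine ⟨Eo.sup k, fun A hA => ?_⟩
    exact hG (Finset.le_sup hA) (hk A (Finset.mem_filter.1 hA).2)
  obtain ⟨j, hj⟩ := exists_pow_lt_of_lt_one (show 0 < ε / 4 by positivity)
    (show (1 / 2 : ℝ) < 1 by norm_num)
  set i := max i₀ j with hi
  have hEoG : Eo ⊆ G i := hi₀.trans (hG (le_max_left _ _))
  have hpow : (1 / 2 : ℝ) ^ i < ε / 4 :=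
    lt_of_le_of_lt (pow_le_pow_of_le_one (by norm_num) (by norm_num) (le_max_right _ _)) hj
  have hdisj : Disjoint (F i) En := by
    rw [Finset.disjoint_left]
    intro A hA hA'
    exact (Finset.mem_filter.1 hA').2 ⟨i + 1, hFG i hA⟩
  have hEn : ∀ A ∈ En, A ∈ 𝒜 := fun A hA => hE A (Finset.mem_filter.1 hA).1
  have hZ : U En ∩ U (F i) ∈ Z M := inter_mem_Z M hAD hEn (hF i) hdisj.symm
  obtain ⟨r, hr1, hr2⟩ := h2 i
  have h3 := hr2 (F i ∪ En) (fun A hA => (Finset.mem_union.1 hA).elim (hF i A) (hEn A))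
  obtain ⟨n, ⟨hn1, hn2⟩, ⟨hn3, hn4⟩, hn5, hn6⟩ := (h3.and_eventually
    ((hcon.and (h1 i (ε / 4) (by positivity))).and
      (hr1.and (Z_small M hZ (show 0 < ε / 4 by positivity))))).exists
  have h4 : u M n E < a - ε := by
    by_contra h5
    exact hn3 ⟨Set.mem_iUnion.2 ⟨i, hn1⟩, not_lt.1 h5⟩
  have h5 : a - ε / 4 ≤ u M n Eo := (hn4 hn1).trans (u_anti M n hEoG)
  have h6 := u_union M n Eo En
  rw [← hEu] at h6
  have h7 : mu M n (U En \ U Eo) ≤ mu M n (U En) := mu_mono M n Set.sdiff_subset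
  have h8 := u_union M n (F i) En
  have h9 := mu_split M n (U En) (U (F i))
  have h10 := hn5 hn1
  linarith

/-- choice of a sequence -/
theorem exists_seq (P : ℕ → ℕ → Prop) (h : ∀ k, ∃ᶠ n in atTop, P k n) :
    ∃ ν : ℕ → ℕ, StrictMono ν ∧ ∀ k, P k (ν k) := extraction_forall_of_frequently h

theorem H_P (hM : ∀ n A, mu M n A ≤ 1) (hAD : ∀ A ∈ 𝒜, ∀ B ∈ 𝒜, A ≠ B → A ∩ B ∈ Z M) (D : ℕ → Set ℕ)
    (hD : ∀ m, D (m + 1) ⊆ D m) (hDH : ∀ m, D m ∈ H M 𝒜 a) :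
    ∃ E ∈ H M 𝒜 a, E ⊆ D 0 ∧ ∀ m, (E \ D m).Finite := by
  classical
  have hanti : Antitone D := antitone_nat_of_succ_le hD
  have hC : ∀ (i : ℕ) (G : Finset (Set ℕ)), (∀ A ∈ G, A ∈ 𝒜) → ∃ C : Set ℕ, C.Infinite ∧ C ⊆ D i ∧
      (∀ m, (C \ D m).Finite) ∧ ∀ ε > 0, ∀ᶠ n in atTop, n ∈ C → a - ε ≤ u M n G := by
    intro i G hG
    obtain ⟨ν, hν, hP⟩ := exists_seq (fun k n => n ∈ D (max i k) ∧ a - 1 / ((k : ℝ) + 1) ≤ u M n G)
      (fun k => hDH (max i k) G hG _ (by positivity))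
    refine ⟨Set.range ν, Set.infinite_range_of_injective hν.injective, ?_, ?_, ?_⟩
    · rintro _ ⟨k, rfl⟩
      exact hanti (le_max_left i k) (hP k).1
    · intro m
      apply ((Set.finite_lt_nat m).image ν).subset
      rintro _ ⟨⟨k, rfl⟩, hk⟩
      refine ⟨k, ?_, rfl⟩
      by_contra hcon
      exact hk (hanti ((not_lt.1 hcon).trans (le_max_right i k)) (hP k).1)
    · intro ε hε
      obtain ⟨K, hK⟩ := exists_nat_one_div_lt hε
      filter_upwards [eventually_ge_atTop (ν K)] with n hn hnC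
      obtain ⟨k, rfl⟩ := hnC
      have hkK : K ≤ k := hν.le_iff_le.1 hn
      have h1 : (1 : ℝ) / ((k : ℝ) + 1) ≤ 1 / ((K : ℝ) + 1) := by gcongr
      have := (hP k).2
      linarith
  choose! C hC1 hC2 hC3 hC4 using hC
  have hO : ∀ (i : ℕ) (G : Finset (Set ℕ)), (∀ A ∈ G, A ∈ 𝒜) → _ := fun i G hG =>
    near_opt M hM 𝒜 i (C i G) (hC1 i G hG)
  choose! O hO1 hO2 using hO
  obtain ⟨G, hG0, hG⟩ : ∃ G : ℕ → Finset (Set ℕ), G 0 = ∅ ∧ ∀ i, G (i + 1) = G i ∪ O i (G i) :=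
    ⟨fun i => Nat.rec ∅ (fun i X => X ∪ O i X) i, rfl, fun _ => rfl⟩
  have hG𝒜 : ∀ i, ∀ A ∈ G i, A ∈ 𝒜 := by
    intro i
    induction i with
    | zero => rw [hG0]; simp
    | succ i ih =>
      intro A hA
      rw [hG, Finset.mem_union] at hA
      rcases hA with hA | hA
      · exact ih A hA
      · exact hO1 i (G i) ih A hA
  refine ⟨⋃ i, C i (G i), ?_, ?_, ?_⟩
  · refine pos_criterion M hAD (fun i => C i (G i)) (fun i => O i (G i)) G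
      (fun i => hO1 i (G i) (hG𝒜 i)) (monotone_nat_of_le_succ fun i => ?_) (fun i => ?_)
      (fun i => hC4 i (G i) (hG𝒜 i)) (fun i => hO2 i (G i) (hG𝒜 i))
    · rw [hG]; exact Finset.subset_union_left
    · rw [hG]; exact Finset.subset_union_right
  · exact Set.iUnion_subset fun i => (hC2 i (G i) (hG𝒜 i)).trans (hanti (Nat.zero_le i))
  · intro m
    have h1 : (⋃ i ∈ Finset.range m, (C i (G i) \ D m)).Finite :=
      Set.Finite.biUnion (Finset.finite_toSet _) (fun i _ => hC3 i (G i) (hG𝒜 i) m)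
    apply h1.subset
    rintro n ⟨hn1, hn2⟩
    obtain ⟨i, hi⟩ := Set.mem_iUnion.1 hn1
    simp only [Set.mem_iUnion, Finset.mem_range]
    refine ⟨i, ?_, hi, hn2⟩
    by_contra hcon
    exact hn2 (hanti (not_lt.1 hcon) (hC2 i (G i) (hG𝒜 i) hi))

theorem H_Q (hM : ∀ n A, mu M n A ≤ 1) (hAD : ∀ A ∈ 𝒜, ∀ B ∈ 𝒜, A ≠ B → A ∩ B ∈ Z M) (E : Set ℕ) (hE : E ∈ H M 𝒜 a)
    (c : ℕ → ℕ) (hc : ∀ j, {n | c n = j}.Finite) :
    ∃ E' ∈ H M 𝒜 a, E' ⊆ E ∧ Set.InjOn c E' := by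
  classical
  have hct : Tendsto c atTop atTop := by
    rw [tendsto_atTop]
    intro b
    have h1 : {n | c n < b}.Finite := by
      have h2 : (⋃ j ∈ Finset.range b, {n | c n = j}).Finite :=
        Set.Finite.biUnion (Finset.finite_toSet _) (fun j _ => hc j)
      apply h2.subset
      intro n hn
      simp only [Set.mem_iUnion, Finset.mem_range]
      exact ⟨c n, hn, rfl⟩
    obtain ⟨N, hN⟩ := h1.bddAbove
    filter_upwards [eventually_gt_atTop N] with n hn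
    by_contra hcon
    have := hN (show n ∈ {n | c n < b} from not_le.1 hcon)
    omega
  have hC : ∀ (G : Finset (Set ℕ)) (E : Set ℕ), (∀ A ∈ G, A ∈ 𝒜) → E ∈ H M 𝒜 a →
      ∃ C : Set ℕ, C.Infinite ∧ C ⊆ E ∧ Set.InjOn c C ∧ (∀ ε > 0, ∀ᶠ n in atTop, n ∈ C → a - ε ≤ u M n G) ∧
        E \ {n | ∃ m ∈ C, c n = c m} ∈ H M 𝒜 a := by
    intro G E hG hE
    obtain ⟨ν₀, hν₀, hP₀⟩ := exists_seq (fun k n => n ∈ E ∧ a - 1 / ((k : ℝ) + 1) ≤ u M n G)
      (fun k => hE G hG _ (by positivity))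
    obtain ⟨φ, hφ, hcφ⟩ := strictMono_subseq_of_tendsto_atTop (hct.comp hν₀.tendsto_atTop)
    have hν : StrictMono (ν₀ ∘ φ) := hν₀.comp hφ
    have hcν : StrictMono (c ∘ (ν₀ ∘ φ)) := hcφ
    have hP : ∀ k, (ν₀ ∘ φ) k ∈ E ∧ a - 1 / ((k : ℝ) + 1) ≤ u M ((ν₀ ∘ φ) k) G := by
      intro k
      refine ⟨(hP₀ (φ k)).1, ?_⟩
      have h1 : k ≤ φ k := hφ.id_le k
      have h2 : (1 : ℝ) / ((φ k : ℝ) + 1) ≤ 1 / ((k : ℝ) + 1) := by gcongr
      have := (hP₀ (φ k)).2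
      show _ ≤ u M (ν₀ (φ k)) G
      linarith
    set ν := ν₀ ∘ φ with hνdef
    -- any set of values is fine
    have key : ∀ S : Set ℕ, S.Infinite → (ν '' S).Infinite ∧ ν '' S ⊆ E ∧ Set.InjOn c (ν '' S) ∧
        ∀ ε > 0, ∀ᶠ n in atTop, n ∈ ν '' S → a - ε ≤ u M n G := by
      intro S hS
      refine ⟨hS.image hν.injective.injOn, ?_, ?_, ?_⟩
      · rintro _ ⟨k, _, rfl⟩
        exact (hP k).1
      · rintro _ ⟨k, _, rfl⟩ _ ⟨l, _, rfl⟩ h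
        rw [hcν.injective h]
      · intro ε hε
        obtain ⟨K, hK⟩ := exists_nat_one_div_lt hε
        filter_upwards [eventually_ge_atTop (ν K)] with n hn hnC
        obtain ⟨k, _, rfl⟩ := hnC
        have hkK : K ≤ k := hν.le_iff_le.1 hn
        have h1 : (1 : ℝ) / ((k : ℝ) + 1) ≤ 1 / ((K : ℝ) + 1) := by gcongr
        have := (hP k).2
        linarith
    have hinf : ∀ p : ℕ, p < 2 → {k : ℕ | k % 2 = p}.Infinite := by
      intro p hp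
      apply Set.infinite_of_not_bddAbove
      rintro ⟨b, hb⟩
      have := hb (show 2 * (b + 1) + p ∈ {k : ℕ | k % 2 = p} by
        show (2 * (b + 1) + p) % 2 = p
        omega)
      omega
    by_cases h0 : E \ {n | ∃ m ∈ ν '' {k : ℕ | k % 2 = 0}, c n = c m} ∈ H M 𝒜 a
    · obtain ⟨h1, h2, h3, h4⟩ := key _ (hinf 0 (by norm_num))
      exact ⟨_, h1, h2, h3, h4, h0⟩
    · obtain ⟨h1, h2, h3, h4⟩ := key _ (hinf 1 (by norm_num))
      refine ⟨_, h1, h2, h3, h4, ?_⟩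
      have h5 : (E \ {n | ∃ m ∈ ν '' {k : ℕ | k % 2 = 0}, c n = c m}) ∪
          (E ∩ {n | ∃ m ∈ ν '' {k : ℕ | k % 2 = 0}, c n = c m}) ∈ H M 𝒜 a := by
        rw [Set.sdiff_union_inter]; exact hE
      refine H_up M ((H_split M h5).resolve_left h0) ?_
      rintro n ⟨hn1, m, ⟨k, hk, rfl⟩, hm⟩
      refine ⟨hn1, ?_⟩
      rintro ⟨m', ⟨l, hl, rfl⟩, hm'⟩
      have : k = l := hcν.injective (hm.symm.trans hm')
      rw [this] at hk
      have hl' : l % 2 = 1 := hl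
      have hk' : l % 2 = 0 := hk
      omega
  choose! C hC1 hC2 hC3 hC4 hC5 using hC
  have hO : ∀ (i : ℕ) (G : Finset (Set ℕ)) (E : Set ℕ), (∀ A ∈ G, A ∈ 𝒜) → E ∈ H M 𝒜 a → _ :=
    fun i G E hG hE => near_opt M hM 𝒜 i (C G E) (hC1 G E hG hE)
  choose! O hO1 hO2 using hO
  obtain ⟨S, hS0, hS⟩ : ∃ S : ℕ → Finset (Set ℕ) × Set ℕ, S 0 = (∅, E) ∧
      ∀ i, S (i + 1) = ((S i).1 ∪ O i (S i).1 (S i).2,
        (S i).2 \ {n | ∃ m ∈ C (S i).1 (S i).2, c n = c m}) :=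
    ⟨fun i => Nat.rec (∅, E) (fun i X => (X.1 ∪ O i X.1 X.2,
        X.2 \ {n | ∃ m ∈ C X.1 X.2, c n = c m})) i, rfl, fun _ => rfl⟩
  have hS' : ∀ i, (∀ A ∈ (S i).1, A ∈ 𝒜) ∧ (S i).2 ∈ H M 𝒜 a := by
    intro i
    induction i with
    | zero => rw [hS0]; exact ⟨by simp, hE⟩
    | succ i ih =>
      rw [hS]
      refine ⟨fun A hA => ?_, hC5 _ _ ih.1 ih.2⟩
      rcases Finset.mem_union.1 hA with hA | hA
      · exact ih.1 A hA
      · exact hO1 i _ _ ih.1 ih.2 A hA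
  have hS2 : Antitone (fun i => (S i).2) := antitone_nat_of_succ_le fun i => by
    show (S (i + 1)).2 ⊆ (S i).2
    rw [hS]; exact Set.sdiff_subset
  refine ⟨⋃ i, C (S i).1 (S i).2, ?_, ?_, ?_⟩
  · refine pos_criterion M hAD (fun i => C (S i).1 (S i).2) (fun i => O i (S i).1 (S i).2)
      (fun i => (S i).1) (fun i => hO1 i _ _ (hS' i).1 (hS' i).2)
      (monotone_nat_of_le_succ fun i => ?_) (fun i => ?_)
      (fun i => hC4 _ _ (hS' i).1 (hS' i).2) (fun i => hO2 i _ _ (hS' i).1 (hS' i).2)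
    · show (S i).1 ≤ (S (i + 1)).1
      rw [hS]; exact Finset.subset_union_left
    · show _ ⊆ (S (i + 1)).1
      rw [hS]; exact Finset.subset_union_right
  · refine Set.iUnion_subset fun i => (hC2 _ _ (hS' i).1 (hS' i).2).trans ?_
    have h1 : (S i).2 ⊆ (S 0).2 := hS2 (Nat.zero_le i)
    rw [hS0] at h1
    exact h1
  · have key : ∀ i j, i < j → ∀ n ∈ C (S i).1 (S i).2, ∀ m ∈ C (S j).1 (S j).2, c n ≠ c m := by
      intro i j hij n hn m hm h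
      have h1 : m ∈ (S j).2 := hC2 _ _ (hS' j).1 (hS' j).2 hm
      have h2 : m ∈ (S (i + 1)).2 := hS2 hij h1
      rw [hS] at h2
      exact h2.2 ⟨n, hn, h.symm⟩
    intro n hn m hm h
    obtain ⟨i, hi⟩ := Set.mem_iUnion.1 hn
    obtain ⟨j, hj⟩ := Set.mem_iUnion.1 hm
    rcases lt_trichotomy i j with hij | hij | hij
    · exact absurd h (key i j hij n hi m hj)
    · subst hij
      exact hC3 _ _ (hS' i).1 (hS' i).2 hi hj h
    · exact absurd h.symm (key j i hij m hj n hi)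

theorem H_sel (hM : ∀ n A, mu M n A ≤ 1) (hAD : ∀ A ∈ 𝒜, ∀ B ∈ 𝒜, A ≠ B → A ∩ B ∈ Z M)
    (ha : ∀ F : Finset (Set ℕ), (∀ A ∈ F, A ∈ 𝒜) → ∃ᶠ n in atTop, a ≤ u M n F) :
    SelCoideal (H M 𝒜 a) where
  up := fun _ hD _ h => H_up M hD h
  split := fun _ _ h => H_split M h
  inf := fun _ h => H_inf M h
  univ := fun F hF ε hε => (ha F hF).mono fun n hn => ⟨Set.mem_univ _, by linarith⟩
  P := H_P M hM hAD
  Q := H_Q M hM hAD

end Pool.Agent.H87.Dn
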