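import Pool.Agent.H87.Dn.Tall

/-!
# Almost disjoint families modulo a density ideal: measures of unbounded mass

Helper file for problem MP_af84fe_lc.
-/

namespace Pool.Agent.H87.Dn

open Filter Topology Pool.Agent.Q302.AZ

/-- Subsets of prescribed approximate mass. -/
theorem chunk {w : ℕ → ℝ} {δ c : ℝ} (S : Finset ℕ) (hS : ∀ x ∈ S, w x ≤ c)
    (h : δ ≤ ∑ x ∈ S, w x) (hδ : 0 < δ) :
    ∃ J ⊆ S, δ ≤ ∑ x ∈ J, w x ∧ ∑ x ∈ J, w x ≤ δ + c := by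
  classical
  induction S using Finset.induction_on with
  | empty =>
    rw [Finset.sum_empty] at h
    exact absurd h (not_le.2 hδ)
  | insert a S ha ih =>
    by_cases h1 : δ ≤ ∑ x ∈ S, w x
    · obtain ⟨J, hJ, h2⟩ := ih (fun x hx => hS x (Finset.mem_insert_of_mem hx)) h1
      exact ⟨J, hJ.trans (Finset.subset_insert _ _), h2⟩
    · refine ⟨insert a S, subset_rfl, h, ?_⟩
      rw [Finset.sum_insert ha]
      have h2 := hS a (Finset.mem_insert_self _ _)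
      linarith [not_le.1 h1]

variable (M : Dat)

/-- Weights truncated at one. -/
noncomputable def trunc : Dat where
  b := M.b
  w := fun x => min (M.w x) 1
  disj := M.disj
  nonneg := fun x => le_min (M.nonneg x) zero_le_one

theorem mu_trunc_le (n : ℕ) (A : Set ℕ) : mu (trunc M) n A ≤ mu M n A := by
  classical
  unfold mu
  exact Finset.sum_le_sum fun x _ => min_le_left _ _

theorem mu_trunc_eq {n : ℕ} {A : Set ℕ} (h : mu (trunc M) n A < 1) : mu (trunc M) n A = mu M n A := by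
  classical
  have h1 : ∀ x ∈ M.b n, x ∈ A → (trunc M).w x = M.w x := by
    intro x hx hA
    have h2 : (trunc M).w x ≤ mu (trunc M) n A := w_le_mu (trunc M) (n := n) hx hA
    have h3 : min (M.w x) 1 < 1 := lt_of_le_of_lt h2 h
    rcases min_lt_iff.1 h3 with h4 | h4
    · exact min_eq_left h4.le
    · exact absurd h4 (lt_irrefl _)
  unfold mu
  apply Finset.sum_congr rfl
  intro x hx
  have hx' := Finset.mem_filter.1 hx
  exact h1 x hx'.1 hx'.2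

theorem le_mu_trunc {n : ℕ} {A : Set ℕ} {δ : ℝ} (hδ : δ ≤ 1) (h : δ ≤ mu M n A) :
    δ ≤ mu (trunc M) n A := by
  by_cases h1 : mu (trunc M) n A < 1
  · rw [mu_trunc_eq M h1]; exact h
  · exact hδ.trans (not_lt.1 h1)

theorem Z_trunc : Z (trunc M) = Z M := by
  ext A
  constructor
  · intro h
    apply mem_Z_of_small
    intro ε hε
    filter_upwards [Z_small (trunc M) h hε, Z_small (trunc M) h one_pos] with n h1 h2
    rwa [← mu_trunc_eq M h2]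
  · intro h
    apply mem_Z_of_small
    intro ε hε
    filter_upwards [Z_small M h hε] with n h1
    exact lt_of_le_of_lt (mu_trunc_le M n A) h1

/-- A multiple of the restriction to a set. -/
noncomputable def cut (T : Set ℕ) (c : ℝ) (hc : 0 < c) : Dat where
  b := M.b
  w := fun x => c * Set.indicator T M.w x
  disj := M.disj
  nonneg := fun x => mul_nonneg hc.le (Set.indicator_nonneg (fun y _ => M.nonneg y) x)

theorem mu_cut (T : Set ℕ) (c : ℝ) (hc : 0 < c) (n : ℕ) (X : Set ℕ) :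
    mu (cut M T c hc) n X = c * mu M n (X ∩ T) := by
  classical
  have h1 : mu (cut M T c hc) n X = ∑ x ∈ M.b n with x ∈ X, c * Set.indicator T M.w x := rfl
  rw [h1, ← Finset.mul_sum]
  congr 1
  unfold mu
  rw [Finset.sum_filter, Finset.sum_filter]
  apply Finset.sum_congr rfl
  intro x _
  by_cases hX : x ∈ X
  · by_cases hT : x ∈ T
    · simp [hX, hT]
    · simp [hX, hT]
  · simp [hX]

theorem Z_cut (T : Set ℕ) (c : ℝ) (hc : 0 < c) (X : Set ℕ) :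
    X ∈ Z (cut M T c hc) ↔ X ∩ T ∈ Z M := by
  constructor
  · intro h
    apply mem_Z_of_small
    intro ε hε
    filter_upwards [Z_small (cut M T c hc) h (show 0 < c * ε by positivity)] with n h1
    rw [mu_cut] at h1
    exact lt_of_mul_lt_mul_left h1 hc.le
  · intro h
    apply mem_Z_of_small
    intro ε hε
    filter_upwards [Z_small M h (show 0 < c⁻¹ * ε by positivity)] with n h1
    rw [mu_cut]
    calc c * mu M n (X ∩ T) < c * (c⁻¹ * ε) := mul_lt_mul_of_pos_left h1 hc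
      _ = ε := by rw [← mul_assoc, mul_inv_cancel₀ hc.ne', one_mul]

variable {𝒜 : Set (Set ℕ)}

/-- Sets of bounded mass are exhausted by finite subfamilies. -/
theorem exhaust_bdd
    (hAD : ∀ A ∈ 𝒜, ∀ B ∈ 𝒜, A ≠ B → A ∩ B ∈ Z M)
    (hmax : ∀ X : Set ℕ, X ∉ Z M → ∃ A ∈ 𝒜, X ∩ A ∉ Z M)
    (g : (ℕ → ℕ) → Set ℕ) (hg : ∀ f, g f ∈ 𝒜) (hg' : ∀ A ∈ 𝒜, ∃ f, g f = A)
    (hgc : ∀ f n, ∃ k, ∀ f', (∀ i < k, f' i = f i) → (n ∈ g f' ↔ n ∈ g f))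
    {T : Set ℕ} {C : ℝ} (hC : ∀ n, mu M n T ≤ C) {ε : ℝ} (hε : 0 < ε) :
    ∃ F : Finset (Set ℕ), (∀ A ∈ F, A ∈ 𝒜) ∧ ∀ᶠ n in atTop, mu M n (T \ U F) < ε := by
  classical
  have hC1 : (0 : ℝ) < max C 1 := lt_max_of_lt_right one_pos
  have hc : (0 : ℝ) < (max C 1)⁻¹ := inv_pos.2 hC1
  have hM : ∀ n X, mu (cut M T _ hc) n X ≤ 1 := by
    intro n X
    rw [mu_cut]
    have h1 : mu M n (X ∩ T) ≤ max C 1 :=
      (mu_mono M n Set.inter_subset_right).trans ((hC n).trans (le_max_left _ _))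
    calc (max C 1)⁻¹ * mu M n (X ∩ T) ≤ (max C 1)⁻¹ * max C 1 := mul_le_mul_of_nonneg_left h1 hc.le
      _ = 1 := inv_mul_cancel₀ hC1.ne'
  obtain ⟨F, hF, hFs⟩ := cover (cut M T _ hc) hM
    (fun B hB D hD hBD => (Z_cut M T _ hc _).2 (Z_mono M (hAD B hB D hD hBD) Set.inter_subset_left))
    (fun X hX => by
      have h1 : X ∩ T ∉ Z M := fun h => hX ((Z_cut M T _ hc _).2 h)
      obtain ⟨B, hB, hXB⟩ := hmax _ h1
      refine ⟨B, hB, fun h => hXB (Z_mono M ((Z_cut M T _ hc _).1 h) ?_)⟩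
      rintro x ⟨⟨h2, h3⟩, h4⟩
      exact ⟨⟨h2, h4⟩, h3⟩)
    g hg hg' hgc (show 0 < (max C 1)⁻¹ * ε by positivity)
  refine ⟨F, hF, ?_⟩
  filter_upwards [hFs] with n hn
  have h4 : u (cut M T _ hc) n F = (max C 1)⁻¹ * mu M n ((U F)ᶜ ∩ T) := mu_cut M T _ hc n _
  rw [h4] at hn
  have h6 : mu M n (T \ U F) = mu M n ((U F)ᶜ ∩ T) := mu_congr M fun x _ => by
    constructor
    · rintro ⟨h, h'⟩; exact ⟨h', h⟩
    · rintro ⟨h, h'⟩; exact ⟨h', h⟩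
  rw [h6]
  exact lt_of_mul_lt_mul_left hn hc.le

/-- Sets of bounded truncated mass are exhausted by finite subfamilies. -/
theorem exhaust
    (hAD : ∀ A ∈ 𝒜, ∀ B ∈ 𝒜, A ≠ B → A ∩ B ∈ Z M)
    (hmax : ∀ X : Set ℕ, X ∉ Z M → ∃ A ∈ 𝒜, X ∩ A ∉ Z M)
    (g : (ℕ → ℕ) → Set ℕ) (hg : ∀ f, g f ∈ 𝒜) (hg' : ∀ A ∈ 𝒜, ∃ f, g f = A)
    (hgc : ∀ f n, ∃ k, ∀ f', (∀ i < k, f' i = f i) → (n ∈ g f' ↔ n ∈ g f))
    {T : Set ℕ} {C : ℝ} (hC : ∀ n, mu (trunc M) n T ≤ C) {ε : ℝ} (hε : 0 < ε) :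
    ∃ F : Finset (Set ℕ), (∀ A ∈ F, A ∈ 𝒜) ∧ ∀ᶠ n in atTop, mu M n (T \ U F) < ε := by
  obtain ⟨F, hF, h1⟩ := exhaust_bdd (trunc M) (by rwa [Z_trunc]) (by rwa [Z_trunc]) g hg hg' hgc hC
    (lt_min hε one_pos)
  refine ⟨F, hF, h1.mono fun n hn => ?_⟩
  rw [← mu_trunc_eq M (hn.trans_le (min_le_right _ _))]
  exact hn.trans_le (min_le_left _ _)

/-- Sets of controlled mass below a positive set. -/
theorem exists_chunks (hw : ∀ x, M.w x ≤ 1) {δ : ℝ} (hδ : 0 < δ) (A : ℕ → Set ℕ)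
    (hA : ∀ i, ∃ᶠ n in atTop, δ ≤ mu M n (A i)) :
    ∃ (ν : ℕ → ℕ) (T : Set ℕ), StrictMono ν ∧ (∀ k, ∀ x ∈ M.b (ν k), x ∈ T → x ∈ A (Nat.unpair k).1) ∧
      (∀ k, δ ≤ mu M (ν k) T) ∧ (∀ n, mu M n T ≤ δ + 1) ∧ ∀ x ∈ T, ∃ i, x ∈ A i := by
  classical
  obtain ⟨ν, hν, hP⟩ := exists_seq (fun k n => δ ≤ mu M n (A (Nat.unpair k).1)) (fun k => hA _)
  have hJ : ∀ k, ∃ J ⊆ (M.b (ν k)).filter (· ∈ A (Nat.unpair k).1),
      δ ≤ ∑ x ∈ J, M.w x ∧ ∑ x ∈ J, M.w x ≤ δ + 1 :=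
    fun k => chunk _ (fun x _ => hw x) (hP k) hδ
  choose J hJ1 hJ2 hJ3 using hJ
  have hJb : ∀ k, ∀ x ∈ J k, x ∈ M.b (ν k) ∧ x ∈ A (Nat.unpair k).1 := fun k x hx => by
    have := hJ1 k hx
    rw [Finset.mem_filter] at this
    exact this
  have hTJ : ∀ k, ∀ x ∈ M.b (ν k), (∃ l, x ∈ J l) → x ∈ J k := by
    rintro k x hx ⟨l, hl⟩
    have h1 := (hJb l x hl).1
    have h2 : ν k = ν l := blk_unique M hx h1
    rw [hν.injective h2]
    exact hl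
  have hT : ∀ k, mu M (ν k) {x | ∃ l, x ∈ J l} = ∑ x ∈ J k, M.w x := by
    intro k
    unfold mu
    congr 1
    ext x
    rw [Finset.mem_filter]
    constructor
    · rintro ⟨h1, h2⟩
      exact hTJ k x h1 h2
    · intro h1
      exact ⟨(hJb k x h1).1, k, h1⟩
  refine ⟨ν, {x | ∃ l, x ∈ J l}, hν, fun k x hx hxT => (hJb k x (hTJ k x hx hxT)).2,
    fun k => by rw [hT]; exact hJ2 k, fun n => ?_, ?_⟩
  · by_cases hn : ∃ k, ν k = n
    · obtain ⟨k, rfl⟩ := hn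
      rw [hT]
      exact hJ3 k
    · have h1 : mu M n {x | ∃ l, x ∈ J l} = 0 := by
        apply mu_eq_zero
        rintro x hx ⟨k, hk⟩
        exact hn ⟨k, blk_unique M (hJb k x hk).1 hx⟩
      rw [h1]
      linarith
  · rintro x ⟨l, hl⟩
    exact ⟨_, (hJb l x hl).2⟩

/-- A family which exhausts all sets of bounded truncated mass is maximal. -/
theorem maximal_of_exhaust
    (h : ∀ T : Set ℕ, (∃ C, ∀ n, mu (trunc M) n T ≤ C) → ∀ ε : ℝ, 0 < ε →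
      ∃ F : Finset (Set ℕ), (∀ A ∈ F, A ∈ 𝒜) ∧ ∀ᶠ n in atTop, mu M n (T \ U F) < ε)
    (X : Set ℕ) (hX : X ∉ Z M) : ∃ A ∈ 𝒜, X ∩ A ∉ Z M := by
  classical
  by_contra hcon
  push Not at hcon
  rw [← Z_trunc] at hX
  obtain ⟨j, hj⟩ := not_mem_Z (trunc M) hX
  have hj0 : (0 : ℝ) < (1 / 2 : ℝ) ^ j := by positivity
  obtain ⟨ν, T, hν, -, h2, h3, h4⟩ := exists_chunks (trunc M) (fun x => min_le_right _ _) hj0
    (fun _ => X) (fun _ => hj)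
  obtain ⟨F, hF, h5⟩ := h T ⟨_, h3⟩ ((1 / 2 : ℝ) ^ j / 2) (by positivity)
  have hfin : ∀ F : Finset (Set ℕ), (∀ A ∈ F, A ∈ 𝒜) → X ∩ U F ∈ Z M := by
    intro F
    induction F using Finset.induction_on with
    | empty => intro _; simpa [U] using Z_finite M Set.finite_empty
    | insert B F hBF ih =>
      intro hF
      refine Z_mono M (Z_union M (hcon B (hF B (Finset.mem_insert_self _ _)))
        (ih fun A hA => hF A (Finset.mem_insert_of_mem hA))) ?_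
      rintro x ⟨hx1, hx2⟩
      simp only [U, Set.mem_iUnion, Finset.mem_insert] at hx2
      obtain ⟨A, hA | hA, hx⟩ := hx2
      · rw [hA] at hx
        exact Or.inl ⟨hx1, hx⟩
      · refine Or.inr ⟨hx1, ?_⟩
        simp only [U, Set.mem_iUnion]
        exact ⟨A, hA, hx⟩
  obtain ⟨N, hN⟩ := eventually_atTop.1 (h5.and (Z_small M (hfin F hF)
    (show 0 < (1 / 2 : ℝ) ^ j / 2 by positivity)))
  obtain ⟨h6, h7⟩ := hN (ν N) (hν.id_le _)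
  have h8 := h2 N
  have h9 : mu (trunc M) (ν N) T ≤ mu M (ν N) T := mu_trunc_le M _ _
  have h10 := mu_split M (ν N) T (U F)
  have h11 : mu M (ν N) (T ∩ U F) ≤ mu M (ν N) (X ∩ U F) := mu_mono M _ (by
    rintro x ⟨hx1, hx2⟩
    obtain ⟨_, hx3⟩ := h4 x hx1
    exact ⟨hx3, hx2⟩)
  linarith

/-- Only finitely many members are large, for weights at most one. -/
theorem level_finite_one (hw : ∀ x, M.w x ≤ 1)
    (hAD : ∀ A ∈ 𝒜, ∀ B ∈ 𝒜, A ≠ B → A ∩ B ∈ Z M)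
    (hmax : ∀ X : Set ℕ, X ∉ Z M → ∃ A ∈ 𝒜, X ∩ A ∉ Z M)
    (g : (ℕ → ℕ) → Set ℕ) (hg : ∀ f, g f ∈ 𝒜) (hg' : ∀ A ∈ 𝒜, ∃ f, g f = A)
    (hgc : ∀ f n, ∃ k, ∀ f', (∀ i < k, f' i = f i) → (n ∈ g f' ↔ n ∈ g f))
    {δ : ℝ} (hδ : 0 < δ) : {A | A ∈ 𝒜 ∧ ∃ᶠ n in atTop, δ ≤ mu M n A}.Finite := by
  classical
  by_contra hcon
  have hinf : {A | A ∈ 𝒜 ∧ ∃ᶠ n in atTop, δ ≤ mu M n A}.Infinite := hcon
  let A : ℕ → Set ℕ := fun i => ((hinf.natEmbedding _ i : {A | A ∈ 𝒜 ∧ ∃ᶠ n in atTop, δ ≤ mu M n A}) : Set ℕ)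
  have hA : ∀ i, A i ∈ 𝒜 ∧ ∃ᶠ n in atTop, δ ≤ mu M n (A i) := fun i => (hinf.natEmbedding _ i).2
  have hAinj : Function.Injective A := fun i j h => (hinf.natEmbedding _).injective (Subtype.ext h)
  obtain ⟨ν, T, hν, hT1, hT2, hT3, -⟩ := exists_chunks M hw hδ A (fun i => (hA i).2)
  obtain ⟨F, hF, hFs⟩ := exhaust_bdd M hAD hmax g hg hg' hgc hT3 (show 0 < δ / 4 by positivity)
  obtain ⟨i, hi⟩ : ∃ i, A i ∉ F := by
    by_contra hcon
    push Not at hcon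
    exact Set.infinite_range_of_injective hAinj (F.finite_toSet.subset (by
      rintro _ ⟨i, rfl⟩
      exact hcon i))
  have hZ : U {A i} ∩ U F ∈ Z M := inter_mem_Z M hAD (by simpa using (hA i).1) hF (by simpa using hi)
  have hUA : U {A i} = A i := by simp [U]
  rw [hUA] at hZ
  obtain ⟨N, hN⟩ := eventually_atTop.1 (hFs.and (Z_small M hZ (show 0 < δ / 4 by positivity)))
  obtain ⟨h2, h3⟩ := hN (ν (Nat.pair i N)) ((Nat.right_le_pair i N).trans (hν.id_le _))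
  have h5 := mu_split M (ν (Nat.pair i N)) T (U F)
  have h7 : mu M (ν (Nat.pair i N)) (T ∩ U F) ≤ mu M (ν (Nat.pair i N)) (A i ∩ U F) := by
    have h8 : mu M (ν (Nat.pair i N)) (T ∩ U F) = mu M (ν (Nat.pair i N)) (A i ∩ T ∩ U F) :=
      mu_congr M fun x hx => by
        constructor
        · rintro ⟨h, h'⟩
          have h9 := hT1 _ x hx h
          rw [Nat.unpair_pair] at h9
          exact ⟨⟨h9, h⟩, h'⟩
        · rintro ⟨⟨_, h⟩, h'⟩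
          exact ⟨h, h'⟩
    rw [h8]
    exact mu_mono M _ (fun x hx => ⟨hx.1.1, hx.2⟩)
  have h8 := hT2 (Nat.pair i N)
  linarith

/-- Only finitely many members are large. -/
theorem level_finite
    (hAD : ∀ A ∈ 𝒜, ∀ B ∈ 𝒜, A ≠ B → A ∩ B ∈ Z M)
    (hmax : ∀ X : Set ℕ, X ∉ Z M → ∃ A ∈ 𝒜, X ∩ A ∉ Z M)
    (g : (ℕ → ℕ) → Set ℕ) (hg : ∀ f, g f ∈ 𝒜) (hg' : ∀ A ∈ 𝒜, ∃ f, g f = A)
    (hgc : ∀ f n, ∃ k, ∀ f', (∀ i < k, f' i = f i) → (n ∈ g f' ↔ n ∈ g f))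
    {δ : ℝ} (hδ : 0 < δ) : {A | A ∈ 𝒜 ∧ ∃ᶠ n in atTop, δ ≤ mu M n A}.Finite := by
  have h1 := level_finite_one (trunc M) (fun x => min_le_right _ _) (by rwa [Z_trunc])
    (by rwa [Z_trunc]) g hg hg' hgc (δ := min δ 1) (lt_min hδ one_pos)
  apply h1.subset
  rintro A ⟨hA, hA'⟩
  exact ⟨hA, hA'.mono fun n hn => le_mu_trunc M (min_le_right _ _) ((min_le_left _ _).trans hn)⟩

/-- Countability. -/
theorem countable
    (hAD : ∀ A ∈ 𝒜, ∀ B ∈ 𝒜, A ≠ B → A ∩ B ∈ Z M) (hpos : ∀ A ∈ 𝒜, A ∉ Z M)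
    (hmax : ∀ X : Set ℕ, X ∉ Z M → ∃ A ∈ 𝒜, X ∩ A ∉ Z M)
    (g : (ℕ → ℕ) → Set ℕ) (hg : ∀ f, g f ∈ 𝒜) (hg' : ∀ A ∈ 𝒜, ∃ f, g f = A)
    (hgc : ∀ f n, ∃ k, ∀ f', (∀ i < k, f' i = f i) → (n ∈ g f' ↔ n ∈ g f)) : 𝒜.Countable := by
  have h1 : (⋃ j : ℕ, {A | A ∈ 𝒜 ∧ ∃ᶠ n in atTop, (1 / 2 : ℝ) ^ j ≤ mu M n A}).Countable :=
    Set.countable_iUnion fun j => (level_finite M hAD hmax g hg hg' hgc (by positivity)).countable
  apply h1.mono
  intro A hA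
  obtain ⟨j, hj⟩ := not_mem_Z M (hpos A hA)
  exact Set.mem_iUnion.2 ⟨j, hA, hj⟩

end Pool.Agent.H87.Dn
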