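import Pool.Agent.H87.Dn.Mad

/-!
# Almost disjoint families modulo a density ideal: tallness

Adapted from the case of the density zero ideal in the library
(`Pool.Graph.R_pool_sql_team_seeded_2aa45f1a.Q302.AZ.Tall`). Helper file for problem MP_af84fe_lc.
-/

namespace Pool.Agent.H87.Dn

open Filter Topology Pool.Agent.Q302.AZ

variable (M : Dat)

variable {𝒜 : Set (Set ℕ)}

theorem blk_unique {n m x : ℕ} (h : x ∈ M.b n) (h' : x ∈ M.b m) : n = m := by
  by_contra hne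
  exact Finset.disjoint_left.1 (M.disj n m hne) h h'

/-- blocks of a set of indices minus a finite union -/
def Yset (D : Set ℕ) (V : ℕ → Set ℕ) : Set ℕ := {x | ∃ n ∈ D, x ∈ M.b n ∧ x ∉ V n}

theorem mu_Y {D : Set ℕ} {V : ℕ → Set ℕ} {n : ℕ} (hn : n ∈ D) (X : Set ℕ) :
    mu M n (Yset M D V ∩ X) = mu M n ((V n)ᶜ ∩ X) := by
  apply mu_congr M
  intro x h1
  constructor
  · rintro ⟨⟨m, hm, hx, hxV⟩, hX⟩
    have : m = n := blk_unique M hx h1
    subst this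
    exact ⟨hxV, hX⟩
  · rintro ⟨hV, hX⟩
    exact ⟨⟨n, hn, h1, hV⟩, hX⟩

theorem mu_Y_not {D : Set ℕ} {V : ℕ → Set ℕ} {n : ℕ} (hn : n ∉ D) (X : Set ℕ) :
    mu M n (Yset M D V ∩ X) = 0 := by
  rw [← mu_empty M n]
  apply mu_congr M
  intro x h1
  constructor
  · rintro ⟨⟨m, hm, hx, hxV⟩, hX⟩
    have : m = n := blk_unique M hx h1
    subst this
    exact absurd hm hn
  · intro h; exact absurd h (Set.notMem_empty x)

theorem Y_not_Z {D : Set ℕ} (hD : D.Infinite) {V : ℕ → Set ℕ} {b : ℝ} (hb : 0 < b)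
    (h : ∀ n ∈ D, b ≤ mu M n (V n)ᶜ) : Yset M D V ∉ Z M := by
  intro hZ
  obtain ⟨n, hn1, hn2⟩ := ((Nat.frequently_atTop_iff_infinite.2 hD).and_eventually
    (Z_small M hZ hb)).exists
  have h1 := mu_Y M (V := V) hn1 Set.univ
  rw [Set.inter_univ, Set.inter_univ] at h1
  rw [h1] at hn2
  exact absurd (h n hn1) (not_le.2 hn2)

/-- every infinite set of indices contains an infinite set on which a finite family covers almost
everything -/
theorem tall (hM : ∀ n A, mu M n A ≤ 1) (hmax : ∀ X : Set ℕ, X ∉ Z M → ∃ A ∈ 𝒜, X ∩ A ∉ Z M) {D : Set ℕ} (hD : D.Infinite)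
    {b : ℝ} (hb : 0 < b) : ∃ F : Finset (Set ℕ), (∀ A ∈ F, A ∈ 𝒜) ∧ {n | n ∈ D ∧ u M n F < b}.Infinite := by
  classical
  by_contra hcon
  push Not at hcon
  have hH : ∀ F : Finset (Set ℕ), (∀ A ∈ F, A ∈ 𝒜) → ∀ᶠ n in atTop, n ∈ D → b ≤ u M n F := by
    intro F hF
    obtain ⟨N, hN⟩ := (hcon F hF).bddAbove
    filter_upwards [eventually_gt_atTop N] with n hn hnD
    by_contra h
    have := hN (show n ∈ {n | n ∈ D ∧ u M n F < b} from ⟨hnD, not_le.1 h⟩)
    omega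
  -- the step
  have hex : ∀ (D' : Set ℕ) (F : Finset (Set ℕ)), D'.Infinite → D' ⊆ D → (∀ A ∈ F, A ∈ 𝒜) →
      ∃ j : ℕ, ∃ A ∈ 𝒜, ∃ D'' : Set ℕ, D''.Infinite ∧ D'' ⊆ D' ∧
        ∀ n ∈ D'', (1 / 2 : ℝ) ^ j ≤ mu M n (A \ U F) := by
    intro D' F hD' hD'D hF
    have h1 : ({n | n ∈ D' ∧ b ≤ u M n F}).Infinite := by
      apply Nat.frequently_atTop_iff_infinite.1
      exact ((Nat.frequently_atTop_iff_infinite.2 hD').and_eventually (hH F hF)).mono
        fun n hn => ⟨hn.1, hn.2 (hD'D hn.1)⟩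
    have h2 : Yset M {n | n ∈ D' ∧ b ≤ u M n F} (fun _ => U F) ∉ Z M := Y_not_Z M h1 hb (fun n hn => hn.2)
    obtain ⟨A, hA, hYA⟩ := hmax _ h2
    obtain ⟨j, hj⟩ := not_mem_Z M hYA
    refine ⟨j, A, hA, {n | n ∈ D' ∧ (1 / 2 : ℝ) ^ j ≤ mu M n (A \ U F)}, ?_, fun n hn => hn.1,
      fun n hn => hn.2⟩
    apply Nat.frequently_atTop_iff_infinite.1
    refine hj.mono fun n hn => ?_
    have hn' : n ∈ {n | n ∈ D' ∧ b ≤ u M n F} := by
      by_contra h3
      rw [mu_Y_not M h3] at hn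
      have : (0 : ℝ) < (1 / 2 : ℝ) ^ j := by positivity
      linarith
    refine ⟨hn'.1, ?_⟩
    rw [mu_Y M hn'] at hn
    refine hn.trans (mu_mono M n ?_)
    rintro x ⟨h3, h4⟩
    exact ⟨h4, h3⟩
  have hstep : ∀ (D' : Set ℕ) (F : Finset (Set ℕ)), D'.Infinite → D' ⊆ D → (∀ A ∈ F, A ∈ 𝒜) →
      ∃ (A : Set ℕ) (D'' : Set ℕ) (j : ℕ), A ∈ 𝒜 ∧ D''.Infinite ∧ D'' ⊆ D' ∧
        (∀ n ∈ D'', (1 / 2 : ℝ) ^ j ≤ mu M n (A \ U F)) ∧
        ∀ i, (∃ A ∈ 𝒜, ∃ D'' : Set ℕ, D''.Infinite ∧ D'' ⊆ D' ∧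
          ∀ n ∈ D'', (1 / 2 : ℝ) ^ i ≤ mu M n (A \ U F)) → j ≤ i := by
    intro D' F h1 h2 h3
    have h4 := hex D' F h1 h2 h3
    obtain ⟨A, hA, D'', h5, h6, h7⟩ := Nat.find_spec h4
    exact ⟨A, D'', _, hA, h5, h6, h7, fun i hi => Nat.find_min' h4 hi⟩
  choose! A D₂ j h1 h2 h3 h4 h5 using hstep
  obtain ⟨S, hS0, hS⟩ : ∃ S : ℕ → Set ℕ × Finset (Set ℕ), S 0 = (D, ∅) ∧
      ∀ k, S (k + 1) = (D₂ (S k).1 (S k).2, insert (A (S k).1 (S k).2) (S k).2) :=
    ⟨fun k => Nat.rec (D, ∅) (fun k X => (D₂ X.1 X.2, insert (A X.1 X.2) X.2)) k, rfl, fun _ => rfl⟩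
  have hS' : ∀ k, (S k).1.Infinite ∧ (S k).1 ⊆ D ∧ ∀ B ∈ (S k).2, B ∈ 𝒜 := by
    intro k
    induction k with
    | zero => rw [hS0]; exact ⟨hD, subset_rfl, by simp⟩
    | succ k ih =>
      rw [hS]
      refine ⟨h2 _ _ ih.1 ih.2.1 ih.2.2, (h3 _ _ ih.1 ih.2.1 ih.2.2).trans ih.2.1, ?_⟩
      intro B hB
      rcases Finset.mem_insert.1 hB with hB | hB
      · rw [hB]; exact h1 _ _ ih.1 ih.2.1 ih.2.2
      · exact ih.2.2 B hB
  have hanti : Antitone (fun k => (S k).1) := antitone_nat_of_succ_le fun k => by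
    show (S (k + 1)).1 ⊆ (S k).1
    rw [hS]; exact h3 _ _ (hS' k).1 (hS' k).2.1 (hS' k).2.2
  have hmonoF : Monotone (fun k => (S k).2) := monotone_nat_of_le_succ fun k => by
    show (S k).2 ⊆ (S (k + 1)).2
    rw [hS]; exact Finset.subset_insert _ _
  -- the diagonal
  obtain ⟨ν, hν, hP⟩ := exists_seq (fun k n => n ∈ (S k).1 ∧ b ≤ u M n (S k).2) (fun k =>
    ((Nat.frequently_atTop_iff_infinite.2 (hS' k).1).and_eventually (hH _ (hS' k).2.2)).mono
      fun n hn => ⟨hn.1, hn.2 ((hS' k).2.1 hn.1)⟩)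
  let V : ℕ → Set ℕ := fun n => ⋃ k ∈ {k | ν k = n}, U (S k).2
  have hV : ∀ k, V (ν k) = U (S k).2 := by
    intro k
    apply Set.Subset.antisymm
    · refine Set.iUnion₂_subset fun l hl => ?_
      rw [show l = k from hν.injective hl]
    · exact Set.subset_biUnion_of_mem (u := fun k => U (S k).2) (show k ∈ {l | ν l = ν k} from rfl)
  have hY : Yset M (Set.range ν) V ∉ Z M := by
    apply Y_not_Z M (Set.infinite_range_of_injective hν.injective) hb
    rintro _ ⟨k, rfl⟩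
    rw [hV]
    exact (hP k).2
  obtain ⟨B, hB, hYB⟩ := hmax _ hY
  obtain ⟨i, hi⟩ := not_mem_Z M hYB
  have hji : ∀ k, j (S k).1 (S k).2 ≤ i := by
    intro k
    apply h5 _ _ (hS' k).1 (hS' k).2.1 (hS' k).2.2
    refine ⟨B, hB, {n | n ∈ (S k).1 ∧ (1 / 2 : ℝ) ^ i ≤ mu M n (B \ U (S k).2)}, ?_,
      fun n hn => hn.1, fun n hn => hn.2⟩
    apply Nat.frequently_atTop_iff_infinite.1
    refine (hi.and_eventually (eventually_ge_atTop (ν k))).mono ?_
    rintro n ⟨hn, hnk⟩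
    have hn' : n ∈ Set.range ν := by
      by_contra h6
      rw [mu_Y_not M h6] at hn
      have : (0 : ℝ) < (1 / 2 : ℝ) ^ i := by positivity
      linarith
    obtain ⟨l, rfl⟩ := hn'
    have hkl : k ≤ l := hν.le_iff_le.1 hnk
    refine ⟨hanti hkl (hP l).1, ?_⟩
    rw [mu_Y M (show ν l ∈ Set.range ν from ⟨l, rfl⟩), hV] at hn
    refine hn.trans (mu_mono M _ ?_)
    rintro x ⟨h6, h7⟩
    exact ⟨h7, fun h8 => h6 (U_mono (hmonoF hkl) h8)⟩
  -- counting
  have hcount : ∀ k, ∀ n ∈ (S k).1, u M n (S k).2 ≤ 1 - k * (1 / 2 : ℝ) ^ i := by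
    intro k
    induction k with
    | zero => intro n _; simpa using u_le_one M hM n _
    | succ k ih =>
      intro n hn
      have hn1 : n ∈ (S k).1 := hanti (Nat.le_succ k) hn
      have h6 := ih n hn1
      rw [hS] at hn ⊢
      have h7 := h4 _ _ (hS' k).1 (hS' k).2.1 (hS' k).2.2 n hn
      have h8 : (1 / 2 : ℝ) ^ i ≤ (1 / 2 : ℝ) ^ (j (S k).1 (S k).2) :=
        pow_le_pow_of_le_one (by norm_num) (by norm_num) (hji k)
      have h9 := u_union M n (S k).2 {A (S k).1 (S k).2}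
      have h10 : (S k).2 ∪ {A (S k).1 (S k).2} = insert (A (S k).1 (S k).2) (S k).2 := by
        rw [Finset.union_comm]; rfl
      have h11 : U {A (S k).1 (S k).2} = A (S k).1 (S k).2 := by simp [U]
      rw [h10, h11] at h9
      rw [h9]
      push_cast
      linarith
  obtain ⟨K, hK⟩ := exists_nat_gt ((2 : ℝ) ^ i)
  obtain ⟨n, hn⟩ := (hS' K).1.nonempty
  have h6 := hcount K n hn
  have h7 := u_nonneg M n (S K).2
  have h8 : (1 : ℝ) < K * (1 / 2 : ℝ) ^ i := by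
    rw [one_div_pow, mul_one_div, lt_div_iff₀ (by positivity)]
    linarith
  linarith

/-- The uncovered density tends to zero along finite subfamilies. -/
theorem cover (hM : ∀ n A, mu M n A ≤ 1) (hAD : ∀ A ∈ 𝒜, ∀ B ∈ 𝒜, A ≠ B → A ∩ B ∈ Z M)
    (hmax : ∀ X : Set ℕ, X ∉ Z M → ∃ A ∈ 𝒜, X ∩ A ∉ Z M)
    (g : (ℕ → ℕ) → Set ℕ) (hg : ∀ f, g f ∈ 𝒜) (hg' : ∀ A ∈ 𝒜, ∃ f, g f = A)
    (hgc : ∀ f n, ∃ k, ∀ f', (∀ i < k, f' i = f i) → (n ∈ g f' ↔ n ∈ g f))
    {a : ℝ} (ha : 0 < a) :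
    ∃ F : Finset (Set ℕ), (∀ A ∈ F, A ∈ 𝒜) ∧ ∀ᶠ n in atTop, u M n F < a := by
  classical
  by_contra hcon
  push Not at hcon
  have hsel : SelCoideal (H M 𝒜 a) := H_sel M hM hAD (fun F hF => (hcon F hF))
  -- the coding
  let V : (ℕ → ℕ) → Set ℕ := fun f => ⋃ i ∈ Finset.range (f 0), g (fun l => f (1 + Nat.pair i l))
  let e : (ℕ → ℕ) → Set ℕ := fun f => {n | mu M n (V f)ᶜ < a / 2}
  have hVc : ∀ f n, ∃ k, ∀ f', (∀ i < k, f' i = f i) → (n ∈ V f' ↔ n ∈ V f) := by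
    intro f n
    have h1 : ∀ i : ℕ, ∃ k : ℕ, ∀ f' : ℕ → ℕ,
        (∀ l < k, f' (1 + Nat.pair i l) = f (1 + Nat.pair i l)) →
        (n ∈ g (fun l => f' (1 + Nat.pair i l)) ↔ n ∈ g (fun l => f (1 + Nat.pair i l))) := by
      intro i
      obtain ⟨k, hk⟩ := hgc (fun l => f (1 + Nat.pair i l)) n
      exact ⟨k, fun f' hf' => hk _ hf'⟩
    choose k hk using h1
    refine ⟨(Finset.range (f 0)).sup (fun i => (Finset.range (k i)).sup (fun l => 2 + Nat.pair i l)) + 1,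
      fun f' hf' => ?_⟩
    have h0 : f' 0 = f 0 := hf' 0 (by omega)
    have h2 : ∀ i < f 0, (n ∈ g (fun l => f' (1 + Nat.pair i l)) ↔
        n ∈ g (fun l => f (1 + Nat.pair i l))) := by
      intro i hi
      apply hk
      intro l hl
      apply hf'
      have h3 : 2 + Nat.pair i l ≤ (Finset.range (k i)).sup (fun l => 2 + Nat.pair i l) :=
        Finset.le_sup (f := fun l => 2 + Nat.pair i l) (Finset.mem_range.2 hl)
      have h4 : (Finset.range (k i)).sup (fun l => 2 + Nat.pair i l) ≤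
          (Finset.range (f 0)).sup (fun i => (Finset.range (k i)).sup (fun l => 2 + Nat.pair i l)) :=
        Finset.le_sup (f := fun i => (Finset.range (k i)).sup (fun l => 2 + Nat.pair i l))
          (Finset.mem_range.2 hi)
      omega
    simp only [V, Set.mem_iUnion, Finset.mem_range, h0]
    constructor
    · rintro ⟨i, hi, h⟩
      exact ⟨i, hi, (h2 i hi).1 h⟩
    · rintro ⟨i, hi, h⟩
      exact ⟨i, hi, (h2 i hi).2 h⟩
  have hec : ∀ f n, n ∈ e f → ∃ k, ∀ f', (∀ i < k, f' i = f i) → n ∈ e f' := by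
    intro f n hn
    choose k hk using hVc f
    refine ⟨(M.b n).sup k, fun f' hf' => ?_⟩
    have h1 : mu M n (V f')ᶜ = mu M n (V f)ᶜ := by
      apply mu_congr M
      intro x hx
      rw [Set.mem_compl_iff, Set.mem_compl_iff, hk x f' (fun i hi => hf' i (hi.trans_le
        (Finset.le_sup (f := k) hx)))]
    show mu M n (V f')ᶜ < a / 2
    rw [h1]
    exact hn
  have heV : ∀ f, ∃ F : Finset (Set ℕ), (∀ A ∈ F, A ∈ 𝒜) ∧ V f = U F := by
    intro f
    refine ⟨(Finset.range (f 0)).image (fun i => g (fun l => f (1 + Nat.pair i l))), ?_, ?_⟩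
    · intro A hA
      obtain ⟨i, _, rfl⟩ := Finset.mem_image.1 hA
      exact hg _
    · simp [V, U]
  have heH : ∀ f, e f ∉ H M 𝒜 a := by
    intro f hf
    obtain ⟨F, hF, hVF⟩ := heV f
    obtain ⟨n, hn1, hn2⟩ := (hf F hF (a / 4) (by positivity)).exists
    have hn1' : mu M n (V f)ᶜ < a / 2 := hn1
    rw [hVF] at hn1'
    have : u M n F = mu M n (U F)ᶜ := rfl
    linarith
  -- every finite family is coded
  have hcode : ∀ F : Finset (Set ℕ), (∀ A ∈ F, A ∈ 𝒜) → ∃ f, V f = U F := by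
    intro F
    induction F using Finset.induction_on with
    | empty =>
      intro _
      exact ⟨fun _ => 0, by simp [V, U]⟩
    | insert B F hBF ih =>
      intro hF
      obtain ⟨f, hf⟩ := ih (fun A hA => hF A (Finset.mem_insert_of_mem hA))
      obtain ⟨φ, hφ⟩ := hg' B (hF B (Finset.mem_insert_self _ _))
      let f' : ℕ → ℕ := fun x => if x = 0 then f 0 + 1 else
        if (Nat.unpair (x - 1)).1 = f 0 then φ (Nat.unpair (x - 1)).2 else f x
      refine ⟨f', ?_⟩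
      have h0 : f' 0 = f 0 + 1 := if_pos rfl
      have h1 : (fun l => f' (1 + Nat.pair (f 0) l)) = φ := by
        funext l
        simp [f']
      have h2 : ∀ i < f 0, (fun l => f' (1 + Nat.pair i l)) = fun l => f (1 + Nat.pair i l) := by
        intro i hi
        funext l
        simp [f', hi.ne]
      have h3 : V f' = g φ ∪ V f := by
        simp only [V]
        rw [h0, Finset.range_add_one, Finset.set_biUnion_insert, h1]
        congr 1
        apply Set.iUnion₂_congr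
        intro i hi
        rw [h2 i (Finset.mem_range.1 hi)]
      rw [h3, hf, hφ]
      simp [U]
  obtain ⟨E, hE, hEf⟩ := mathias hsel e hec heH
  obtain ⟨F, hF, hinf⟩ := tall M hM hmax (H_inf M hE) (b := a / 2) (by positivity)
  obtain ⟨f, hf⟩ := hcode F hF
  apply hinf
  apply (hEf f).subset
  rintro n ⟨h1, h2⟩
  refine ⟨h1, ?_⟩
  show mu M n (V f)ᶜ < a / 2
  rw [hf]
  exact h2

end Pool.Agent.H87.Dn
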