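import Pool.Agent.H87.Dn.Dich

/-!
# Densities with weights as density ideals

Helper file for problem MP_af84fe_lc.
-/

namespace Pool.Agent.H87.Dn

open Filter Topology

open Classical in
/-- The weight of the points of `A` below `n` divided by the weight of all points below `n`. -/
noncomputable def fd (f : ℕ → ℝ) (A : Set ℕ) (n : ℕ) : ℝ :=
  (∑ i ∈ Finset.range n with i ∈ A, f i) / ∑ i ∈ Finset.range n, f i

/-- The sets of density zero for the weights `f`. -/
def Zf (f : ℕ → ℝ) : Set (Set ℕ) := {A | Tendsto (fun n => fd f A n) atTop (𝓝 0)}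

open Classical in
/-- The density zero ideal. -/
def Z0 : Set (Set ℕ) :=
  {A | Tendsto (fun n : ℕ => (((Finset.range n).filter (· ∈ A)).card : ℝ) / n) atTop (𝓝 0)}

theorem Z0_eq : Z0 = Zf (fun _ => 1) := by
  classical
  ext A
  have h : ∀ n : ℕ, fd (fun _ => 1) A n = (((Finset.range n).filter (· ∈ A)).card : ℝ) / n := by
    intro n
    unfold fd
    simp
  show Tendsto _ _ _ ↔ Tendsto (fun n => fd (fun _ => 1) A n) _ _
  simp only [h]

section

variable {f : ℕ → ℝ} (hf : ∀ n, 0 ≤ f n)
  (hS : Tendsto (fun n => ∑ i ∈ Finset.range n, f i) atTop atTop)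

include hf

theorem fd_nonneg (A : Set ℕ) (n : ℕ) : 0 ≤ fd f A n := by
  classical
  exact div_nonneg (Finset.sum_nonneg fun i _ => hf i) (Finset.sum_nonneg fun i _ => hf i)

theorem fd_le_one (A : Set ℕ) (n : ℕ) : fd f A n ≤ 1 := by
  classical
  apply div_le_one_of_le₀
  · exact Finset.sum_le_sum_of_subset_of_nonneg (Finset.filter_subset _ _) fun i _ _ => hf i
  · exact Finset.sum_nonneg fun i _ => hf i

theorem fd_mono {A B : Set ℕ} (h : A ⊆ B) (n : ℕ) : fd f A n ≤ fd f B n := by
  classical
  apply div_le_div_of_nonneg_right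
  · apply Finset.sum_le_sum_of_subset_of_nonneg
    · intro x hx
      simp only [Finset.mem_filter] at hx ⊢
      exact ⟨hx.1, h hx.2⟩
    · intro i _ _
      exact hf i
  · exact Finset.sum_nonneg fun i _ => hf i

theorem fd_split (A B : Set ℕ) (n : ℕ) : fd f A n ≤ fd f (A ∩ B) n + fd f Bᶜ n := by
  classical
  unfold fd
  rw [← add_div]
  apply div_le_div_of_nonneg_right
  · rw [Finset.sum_filter, Finset.sum_filter, Finset.sum_filter, ← Finset.sum_add_distrib]
    apply Finset.sum_le_sum
    intro i _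
    have := hf i
    by_cases h1 : i ∈ A
    · by_cases h2 : i ∈ B
      · simp [h1, h2]
      · simp [h1, h2]
    · by_cases h2 : i ∈ B
      · simp [h1, h2]
      · simp [h1, h2, this]
  · exact Finset.sum_nonneg fun i _ => hf i

include hS

/-- The blocks. -/
theorem exists_blocks : ∃ s : ℕ → ℕ, (∀ k, 0 < ∑ i ∈ Finset.range (s k), f i) ∧
    (∀ k, s k < s (k + 1)) ∧
    (∀ k, 2 * ∑ i ∈ Finset.range (s k), f i ≤ ∑ i ∈ Finset.range (s (k + 1)), f i) ∧
    ∀ k m, m < s (k + 1) → ∑ i ∈ Finset.range m, f i < 2 * ∑ i ∈ Finset.range (s k), f i := by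
  classical
  have hmono : Monotone (fun n => ∑ i ∈ Finset.range n, f i) := by
    intro a b hab
    exact Finset.sum_le_sum_of_subset_of_nonneg (Finset.range_mono hab) fun i _ _ => hf i
  have hex : ∀ c : ℝ, ∃ m, c ≤ ∑ i ∈ Finset.range m, f i := fun c => (hS.eventually_ge_atTop c).exists
  obtain ⟨s, hs0, hs⟩ : ∃ s : ℕ → ℕ, s 0 = Nat.find (hex 1) ∧
      ∀ k, s (k + 1) = Nat.find (hex (2 * ∑ i ∈ Finset.range (s k), f i)) :=
    ⟨fun k => Nat.rec (Nat.find (hex 1)) (fun _ x => Nat.find (hex (2 * ∑ i ∈ Finset.range x, f i))) k,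
      rfl, fun _ => rfl⟩
  have h2 : ∀ k, 2 * ∑ i ∈ Finset.range (s k), f i ≤ ∑ i ∈ Finset.range (s (k + 1)), f i := by
    intro k
    rw [hs k]
    exact Nat.find_spec (hex (2 * ∑ i ∈ Finset.range (s k), f i))
  have h1 : ∀ k, 0 < ∑ i ∈ Finset.range (s k), f i := by
    intro k
    induction k with
    | zero =>
      rw [hs0]
      exact lt_of_lt_of_le one_pos (Nat.find_spec (hex 1))
    | succ k ih => linarith [h2 k]
  refine ⟨s, h1, ?_, h2, ?_⟩
  · intro k
    by_contra hcon
    have h3 := hmono (not_lt.1 hcon)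
    have h4 := h1 k
    have h5 := h2 k
    simp only at h3
    linarith
  · intro k m hm
    rw [hs k] at hm
    exact not_le.1 (Nat.find_min (hex (2 * ∑ i ∈ Finset.range (s k), f i)) hm)

/-- Densities with weights come from density ideals with bounded masses. -/
theorem exists_dat : ∃ M : Dat, (∀ n A, mu M n A ≤ 3) ∧ Z M = Zf f ∧
    ∀ A : Set ℕ, ∀ ε : ℝ, 0 < ε → (∀ᶠ k in atTop, mu M k A < ε) → ∀ᶠ n in atTop, fd f A n < 4 * ε := by
  classical
  obtain ⟨s, hpos, hlt, h2, hmin⟩ := exists_blocks hf hS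
  have hsm : StrictMono s := strictMono_nat_of_lt_succ hlt
  set S : ℕ → ℝ := fun n => ∑ i ∈ Finset.range n, f i with hSdef
  have hSmono : Monotone S := by
    intro a b hab
    exact Finset.sum_le_sum_of_subset_of_nonneg (Finset.range_mono hab) fun i _ _ => hf i
  have hS0 : ∀ n, 0 ≤ S n := fun n => Finset.sum_nonneg fun i _ => hf i
  let M : Dat :=
    { b := fun k => Finset.Ico (s k) (s (k + 1))
      w := fun x => f x / S (x + 1)
      disj := by
        have key : ∀ n m, n < m → Disjoint (Finset.Ico (s n) (s (n + 1))) (Finset.Ico (s m) (s (m + 1))) := by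
          intro n m h
          rw [Finset.disjoint_left]
          intro x hx hx'
          rw [Finset.mem_Ico] at hx hx'
          have := hsm.monotone (show n + 1 ≤ m from h)
          omega
        intro n m h
        rcases lt_or_gt_of_ne h with h' | h'
        · exact key n m h'
        · exact (key m n h').symm
      nonneg := fun x => div_nonneg (hf x) (hS0 _) }
  -- the indicator
  let g : Set ℕ → ℕ → ℝ := fun A i => if i ∈ A then f i else 0
  have hg0 : ∀ A i, 0 ≤ g A i := by
    intro A i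
    show 0 ≤ (if i ∈ A then f i else 0)
    split_ifs
    · exact hf i
    · exact le_refl _
  have hfd : ∀ A n, fd f A n = (∑ i ∈ Finset.range n, g A i) / S n := by
    intro A n
    unfold fd
    rw [Finset.sum_filter]
  have hmu : ∀ A k, mu M k A = ∑ x ∈ Finset.Ico (s k) (s (k + 1)), g A x / S (x + 1) := by
    intro A k
    have h1 : mu M k A = ∑ x ∈ Finset.Ico (s k) (s (k + 1)) with x ∈ A, f x / S (x + 1) := rfl
    rw [h1, Finset.sum_filter]
    apply Finset.sum_congr rfl
    intro x _
    by_cases hx : x ∈ A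
    · simp [g, hx]
    · simp [g, hx]
  -- first comparison
  have hL1 : ∀ A k, mu M k A ≤ 2 * fd f A (s (k + 1) - 1) + fd f A (s (k + 1)) := by
    intro A k
    obtain ⟨m, hm⟩ : ∃ m, s (k + 1) = m + 1 := ⟨s (k + 1) - 1, by have := hlt k; omega⟩
    have hkm : s k ≤ m := by have := hlt k; omega
    rw [hmu, hm, Finset.sum_Ico_succ_top hkm, Nat.add_sub_cancel]
    have hSk := hpos k
    have hSm : 0 < S m := lt_of_lt_of_le hSk (hSmono hkm)
    have h3 : S m < 2 * S (s k) := hmin k m (by omega)
    have h4 : ∑ x ∈ Finset.Ico (s k) m, g A x / S (x + 1) ≤ 2 * fd f A m := by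
      have h5 : ∑ x ∈ Finset.Ico (s k) m, g A x / S (x + 1) ≤ ∑ x ∈ Finset.Ico (s k) m, g A x / S (s k) := by
        apply Finset.sum_le_sum
        intro x hx
        apply div_le_div_of_nonneg_left (hg0 A x) hSk
        exact hSmono (by have := (Finset.mem_Ico.1 hx).1; omega)
      have h6 : ∑ x ∈ Finset.Ico (s k) m, g A x / S (s k) = (∑ x ∈ Finset.Ico (s k) m, g A x) / S (s k) := by
        rw [Finset.sum_div]
      have h7 : ∑ x ∈ Finset.Ico (s k) m, g A x ≤ ∑ x ∈ Finset.range m, g A x :=
        Finset.sum_le_sum_of_subset_of_nonneg (by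
          intro x hx
          rw [Finset.mem_range]
          exact (Finset.mem_Ico.1 hx).2) (fun i _ _ => hg0 A i)
      have h8 : 0 ≤ ∑ x ∈ Finset.range m, g A x := Finset.sum_nonneg fun i _ => hg0 A i
      have h9 : (∑ x ∈ Finset.Ico (s k) m, g A x) / S (s k) ≤ 2 * ((∑ x ∈ Finset.range m, g A x) / S m) := by
        rw [mul_div_assoc', div_le_div_iff₀ hSk hSm]
        calc (∑ x ∈ Finset.Ico (s k) m, g A x) * S m ≤ (∑ x ∈ Finset.range m, g A x) * S m :=
              mul_le_mul_of_nonneg_right h7 hSm.le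
          _ ≤ (∑ x ∈ Finset.range m, g A x) * (2 * S (s k)) := mul_le_mul_of_nonneg_left h3.le h8
          _ = 2 * (∑ x ∈ Finset.range m, g A x) * S (s k) := by ring
      rw [hfd]
      linarith
    have h5 : g A m / S (m + 1) ≤ fd f A (m + 1) := by
      rw [hfd]
      apply div_le_div_of_nonneg_right _ (hS0 _)
      rw [Finset.sum_range_succ]
      have : 0 ≤ ∑ x ∈ Finset.range m, g A x := Finset.sum_nonneg fun i _ => hg0 A i
      linarith
    linarith
  -- second comparison
  have hpart : ∀ A k n, s k ≤ n → n ≤ s (k + 1) →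
      ∑ x ∈ Finset.range n, g A x ≤ ∑ x ∈ Finset.range (s k), g A x + S n * mu M k A := by
    intro A k n h3 h4
    rw [← Finset.sum_range_add_sum_Ico _ h3]
    have h5 : ∑ x ∈ Finset.Ico (s k) n, g A x ≤ S n * mu M k A := by
      rw [hmu]
      have h6 : ∑ x ∈ Finset.Ico (s k) n, g A x / S (x + 1) ≤
          ∑ x ∈ Finset.Ico (s k) (s (k + 1)), g A x / S (x + 1) :=
        Finset.sum_le_sum_of_subset_of_nonneg (Finset.Ico_subset_Ico_right h4)
          fun i _ _ => div_nonneg (hg0 A i) (hS0 _)
      have h7 : ∑ x ∈ Finset.Ico (s k) n, g A x ≤ S n * ∑ x ∈ Finset.Ico (s k) n, g A x / S (x + 1) := by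
        rw [Finset.mul_sum]
        apply Finset.sum_le_sum
        intro x hx
        have hx' := Finset.mem_Ico.1 hx
        have h8 : S (s k) ≤ S (x + 1) := hSmono (by omega)
        have h9 : 0 < S (x + 1) := lt_of_lt_of_le (hpos k) h8
        have h10 : S (x + 1) ≤ S n := hSmono (by omega)
        rw [mul_div_assoc', le_div_iff₀ h9, mul_comm (S n)]
        exact mul_le_mul_of_nonneg_left h10 (hg0 A x)
      exact h7.trans (mul_le_mul_of_nonneg_left h6 (hS0 n))
    linarith
  have hL2 : ∀ A : Set ℕ, ∀ ε : ℝ, 0 < ε → (∀ᶠ k in atTop, mu M k A < ε) →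
      ∀ᶠ n in atTop, fd f A n < 4 * ε := by
    intro A ε hε hk
    obtain ⟨J, hJ⟩ := eventually_atTop.1 hk
    have h3 : ∀ k, J ≤ k → ∑ x ∈ Finset.range (s k), g A x ≤
        ∑ x ∈ Finset.range (s J), g A x + 2 * ε * S (s k) := by
      intro k hk
      induction hk with
      | refl =>
        have : 0 ≤ 2 * ε * S (s J) := mul_nonneg (by positivity) (hS0 _)
        linarith
      | step hk ih =>
        rename_i k
        have hk' : J ≤ k := hk
        have h4 := hpart A k (s (k + 1)) (hlt k).le le_rfl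
        have h5 : S (s (k + 1)) * mu M k A ≤ S (s (k + 1)) * ε :=
          mul_le_mul_of_nonneg_left (hJ k hk').le (hS0 _)
        have h6 : 2 * S (s k) ≤ S (s (k + 1)) := h2 k
        have h7 : ε * (2 * S (s k)) ≤ ε * S (s (k + 1)) := mul_le_mul_of_nonneg_left h6 hε.le
        rw [Nat.succ_eq_add_one]
        linarith
    have h4 : ∀ n, s J ≤ n → ∃ k, J ≤ k ∧ s k ≤ n ∧ n < s (k + 1) := by
      intro n hn
      induction n, hn using Nat.le_induction with
      | base => exact ⟨J, le_rfl, le_rfl, hlt J⟩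
      | succ n hn ih =>
        obtain ⟨k, h5, h6, h7⟩ := ih
        by_cases h8 : n + 1 < s (k + 1)
        · exact ⟨k, h5, by omega, h8⟩
        · have h9 := hlt (k + 1)
          exact ⟨k + 1, by omega, by omega, by omega⟩
    filter_upwards [eventually_ge_atTop (s J),
      hS.eventually_gt_atTop ((∑ x ∈ Finset.range (s J), g A x) / ε)] with n hn1 hn2
    obtain ⟨k, h5, h6, h7⟩ := h4 n hn1
    have h8 := h3 k h5
    have h9 := hpart A k n h6 h7.le
    have hSn : 0 < S n := lt_of_lt_of_le (hpos k) (hSmono h6)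
    have h10 : S n * mu M k A ≤ S n * ε := mul_le_mul_of_nonneg_left (hJ k h5).le (hS0 _)
    have h11 : ε * S (s k) ≤ ε * S n := mul_le_mul_of_nonneg_left (hSmono h6) hε.le
    have h12 : (∑ x ∈ Finset.range (s J), g A x) < S n * ε := (div_lt_iff₀ hε).1 hn2
    rw [hfd, div_lt_iff₀ hSn]
    linarith
  refine ⟨M, ?_, ?_, hL2⟩
  · intro n A
    have h3 := hL1 A n
    have h4 := fd_le_one hf A (s (n + 1) - 1)
    have h5 := fd_le_one hf A (s (n + 1))
    linarith
  · ext A
    constructor
    · intro h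
      show Tendsto (fun n => fd f A n) atTop (𝓝 0)
      rw [tendsto_order]
      refine ⟨fun a ha => Eventually.of_forall fun n => lt_of_lt_of_le ha (fd_nonneg hf A n), ?_⟩
      intro ε hε
      filter_upwards [hL2 A (ε / 4) (by positivity) (Z_small M h (by positivity))] with n hn
      linarith
    · intro h
      have h' : Tendsto (fun n => fd f A n) atTop (𝓝 0) := h
      have h3 : Tendsto (fun k => s (k + 1)) atTop atTop := hsm.tendsto_atTop.comp (tendsto_add_atTop_nat 1)
      have h4 : Tendsto (fun k => s (k + 1) - 1) atTop atTop := (tendsto_sub_atTop_nat 1).comp h3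
      have h5 := ((h'.comp h4).const_mul 2).add (h'.comp h3)
      rw [mul_zero, add_zero] at h5
      exact squeeze_zero (fun n => mu_nonneg M n A) (fun k => hL1 A k) h5

end

end Pool.Agent.H87.Dn
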